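import Pool.Agent.helper25.SXB.FinM

set_option autoImplicit false

/-!
# Module AllB: every degree with the standard conditions

`exactAllB`: let `C0` be the constant of `exactMB j`, `C = C0 + 100`. First alternative: `exactMB`. Second
alternative, `c = cd (Bm b) + cd ms`. If `c ≤ C(d+2,2)`: `N = d² - ∑ b²`, `2 C(d+2,2) - 2 cd (Bm b) =
N + 3 d + 2 - ∑ b` (`two_cd_Bm`), so `2 cd ms ≤ N + 3 d + 2`, and `4 N ≥ d Y ≥ 100 d` (`std_N`), `d ≥ Y ≥ 100`, so
`3 d + 2 ≤ N` and `cd ms ≤ N`: first alternative. If `C(d+2,2) < c`: let `e` be the largest number with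
`C(e+2,2) < c` (`Nat.findGreatest`, or the smallest `e` with `c ≤ C(e+3,2)`, `Nat.find` as in KD/AllD.lean); `d ≤ e`,
`c ≤ C(e+3,2) = C(e+2,2) + e + 2`. The standard conditions hold for `e`, `N_e = e² - ∑ b²`,
`2 cd ms ≤ N_e + 3 e + 2 + 2 (e + 2) ≤ 2 N_e`: `exactMB` for `e` gives `E e`, and `E.mono` gives `E d`.
-/

namespace Pool.Agent.helper25.SXB

open MvPolynomial Pool.Agent.helper5.NBS Pool.Agent.helper89.Segre Pool.Agent.SH9
  Pool.Agent.helper25.ST Pool.Agent.helper25.SX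

theorem exactAllB (j : ℕ) : ∃ C : ℕ, ∀ (d M Y N : ℕ) (b : Fin 8 → ℕ) (ms : Multiset ℕ),
    (∀ μ ∈ ms, μ ≤ M) → (∀ i j k, i ≠ j → j ≠ k → i ≠ k → b i + b j + b k ≤ d) →
    (∀ i j, i ≠ j → b i + b j + Y ≤ d) → ∑ i, b i ^ 2 + N = d ^ 2 → C * (M + 1) ≤ Y →
    (C * (M + 1) ^ (5 * 9 ^ j + 1) ≤ N ^ (2 * 9 ^ j) ∨
      C * (M + 1) ^ (5 * 9 ^ j + 1) ≤ cd ms ^ (2 * 9 ^ j)) →
    Good ℂ (tri d) (Bm b + ms) (min (cd (Bm b) + cd ms) (tri d).card) := by
  obtain ⟨C0, hC0⟩ := exactMB j
  refine ⟨C0 + 100, ?_⟩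
  intro d M Y N b ms hM h3 h2 hN hY hor
  have hY0 : C0 * (M + 1) ≤ Y :=
    (Nat.mul_le_mul_right (M + 1) (Nat.le_add_right C0 100)).trans hY
  have hY1 : 100 ≤ Y := by
    have h4 : 100 * 1 ≤ (C0 + 100) * (M + 1) := Nat.mul_le_mul (by omega) (by omega)
    omega
  have hYd : Y ≤ d := by
    have := h2 0 1 (by decide)
    omega
  rcases hor with hor | hor
  · exact hC0 d M Y N b ms hM h3 h2 hN hY0
      ((Nat.mul_le_mul_right _ (Nat.le_add_right C0 100)).trans hor)
  · have hor0 : C0 * (M + 1) ^ (5 * 9 ^ j + 1) ≤ cd ms ^ (2 * 9 ^ j) :=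
      (Nat.mul_le_mul_right _ (Nat.le_add_right C0 100)).trans hor
    have hB := two_cd_Bm b
    have key : ∀ e N' : ℕ, d ≤ e → ∑ i, b i ^ 2 + N' = e ^ 2 → cd ms ≤ N' →
        Good ℂ (tri e) (Bm b + ms) (min (cd (Bm b) + cd ms) (tri e).card) := by
      intro e N' he hN' hle
      exact hC0 e M Y N' b ms hM (fun i j k hij hjk hik => (h3 i j k hij hjk hik).trans he)
        (fun i j hij => (h2 i j hij).trans he) hN' hY0
        (hor0.trans (Nat.pow_le_pow_left hle _))
    have hsd : ∀ e N' : ℕ, d ≤ e → ∑ i, b i ^ 2 + N' = e ^ 2 → 25 * e ≤ N' := by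
      intro e N' he hN'
      have h4 := std_N (D := e) (Y := Y) (N := N') (b := b)
        (fun i j k hij hjk hik => (h3 i j k hij hjk hik).trans he)
        (fun i j hij => (h2 i j hij).trans he) hN'
      have h5 : e * 100 ≤ e * Y := Nat.mul_le_mul_left e hY1
      omega
    have htri : ∀ e : ℕ, 2 * (tri e).card = e ^ 2 + 3 * e + 2 := by
      intro e
      rw [card_tri, two_choose]
      ring
    rcases Nat.lt_or_ge (tri d).card (cd (Bm b) + cd ms) with hc | hc
    · -- too many conditions: empty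
      rw [min_eq_right hc.le]
      have hex : ∃ e, cd (Bm b) + cd ms ≤ (tri e).card := by
        refine ⟨cd (Bm b) + cd ms, ?_⟩
        have h4 := htri (cd (Bm b) + cd ms)
        omega
      have hs := Nat.find_spec hex
      have hmono : ∀ a a' : ℕ, a ≤ a' → (tri a).card ≤ (tri a').card := by
        intro a a' haa
        have h4 := htri a
        have h5 := htri a'
        have h6 : a ^ 2 ≤ a' ^ 2 := Nat.pow_le_pow_left haa 2
        omega
      have h4 : d < Nat.find hex := by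
        by_contra hcon
        have := hmono _ _ (not_lt.mp hcon)
        omega
      obtain ⟨e, he⟩ : ∃ e, Nat.find hex = e + 1 := ⟨Nat.find hex - 1, by omega⟩
      have h5 : (tri e).card < cd (Bm b) + cd ms := by
        have := Nat.find_min hex (m := e) (by omega)
        omega
      rw [he] at hs
      have hde : d ≤ e := by omega
      have hle2 : d ^ 2 ≤ e ^ 2 := Nat.pow_le_pow_left hde 2
      obtain ⟨N', hN'⟩ : ∃ N', ∑ i, b i ^ 2 + N' = e ^ 2 :=
        ⟨e ^ 2 - ∑ i, b i ^ 2, by omega⟩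
      have h6 := hsd e N' hde hN'
      have h7 := htri (e + 1)
      have h8 : (e + 1) ^ 2 = e ^ 2 + 2 * e + 1 := by ring
      have h9 := key e N' hde hN' (by omega)
      rw [min_eq_right h5.le] at h9
      have h10 : E e (Bm b + ms) := h9
      exact h10.mono hde
    · have h4 := hsd d N le_rfl hN
      have h5 := htri d
      exact key d N le_rfl hN (by omega)

end Pool.Agent.helper25.SXB
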