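import Pool.Agent.helper25.SXB.Defs

set_option autoImplicit false

/-!
# Module Three: eight and nine very general points

`pos_three`: nine very general points (`TN one_pos 9`, `VGN_of`): `∑ mult ≤ 3 deg` is `nine_sum`
(KB/N4.lean), and `16 ∑_(i < 8) mult ≤ 47 deg`: numerical core `eight_num` for `γ : Fin 8 → ℕ`,
`E = deg`; let `s = ∑ γ`, `Q = ∑ γ²`, and suppose `47 E + 1 ≤ 16 s`. `E = 1`: `s ≥ 3`, `Q = s`,
`Q ≤ 2`. All `γ` equal to `g > 0`: `8 g² ≤ E² + g`, so `1288 g ≤ 2209`, `g = 1`, `E ≤ 2`,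
contradiction. Some `γ i = 0`, `k ≤ 7` positive ones, `γ_j` the smallest positive one:
`s² ≤ k Q ≤ 7 E² + k γ_j ≤ 7 E² + s`. Otherwise let `δ` be the smallest nonzero square of a
difference: `8 δ ≤ 16 Q - 2 s²`, `Q ≤ E² + δ`, so `2 s² ≤ 8 Q + 8 E² ≤ 16 E² + 8 γ_j ≤ 16 E² + s`.
-/

namespace Pool.Agent.helper25.SXB

open MvPolynomial Pool.Agent.helper5.NBS Pool.Agent.helper89.Segre Pool.Agent.SH9
  Pool.Agent.helper25.ST

/-- the numerical core -/
private lemma eight_num {μ : Fin 8 → ℕ} {D : ℕ} (hD : 0 < D) (hle : ∀ i, μ i ≤ D)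
    (xu : ∀ j, 0 < μ j → ∑ i, μ i ^ 2 ≤ D ^ 2 + μ j)
    (sw : ∀ i k, μ i ≠ μ k → ∑ l, (μ l : ℤ) ^ 2 ≤ (D : ℤ) ^ 2 + ((μ i : ℤ) - μ k) ^ 2)
    (h3 : ∑ i, μ i ≤ 3 * D) : 16 * ∑ i, μ i ≤ 47 * D := by
  classical
  by_contra hcon
  have hs : 47 * D + 1 ≤ 16 * ∑ i, μ i := by omega
  have hne : (Finset.univ.filter (fun i => 0 < μ i)).Nonempty := by
    by_contra hc
    rw [Finset.not_nonempty_iff_eq_empty] at hc
    have : ∑ i, μ i = 0 := by
      refine Finset.sum_eq_zero fun i _ => ?_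
      by_contra h0
      have : i ∈ Finset.univ.filter (fun i => 0 < μ i) := by
        simp only [Finset.mem_filter, Finset.mem_univ, true_and]; omega
      rw [hc] at this
      simp at this
    omega
  obtain ⟨j, hjm, hjmin⟩ := Finset.exists_min_image _ μ hne
  have hj : 0 < μ j := by simpa using hjm
  have hxu := xu j hj
  -- degree one
  rcases Nat.lt_or_ge D 2 with hD1 | hD2
  · have hD1 : D = 1 := by omega
    subst hD1
    have h1 : ∑ i, μ i ≤ ∑ i, μ i ^ 2 := Finset.sum_le_sum fun i _ => by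
      rw [pow_two]; exact Nat.le_mul_self _
    have h2 := hle j
    omega
  -- the sum of the positive ones
  obtain ⟨k, hk⟩ : ∃ k, k = (Finset.univ.filter (fun i => 0 < μ i)).card := ⟨_, rfl⟩
  have hks : k * μ j ≤ ∑ i, μ i := by
    rw [hk]
    calc (Finset.univ.filter (fun i => 0 < μ i)).card * μ j
        = ∑ i ∈ Finset.univ.filter (fun i => 0 < μ i), μ j := by simp
      _ ≤ ∑ i ∈ Finset.univ.filter (fun i => 0 < μ i), μ i :=
        Finset.sum_le_sum fun i hi => hjmin i hi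
      _ ≤ ∑ i, μ i := Finset.sum_le_sum_of_subset (Finset.filter_subset _ _)
  have hcs : (∑ i, μ i) ^ 2 ≤ k * ∑ i, μ i ^ 2 := by
    have h1 : ∑ i, μ i = ∑ i ∈ Finset.univ.filter (fun i => 0 < μ i), μ i := by
      rw [Finset.sum_filter]
      refine Finset.sum_congr rfl fun i _ => ?_
      split_ifs with h
      · rfl
      · omega
    rw [h1, hk]
    calc (∑ i ∈ Finset.univ.filter (fun i => 0 < μ i), μ i) ^ 2
        ≤ (Finset.univ.filter (fun i => 0 < μ i)).card *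
          ∑ i ∈ Finset.univ.filter (fun i => 0 < μ i), μ i ^ 2 := sq_sum_le_card_mul_sum_sq
      _ ≤ _ := Nat.mul_le_mul_left _ (Finset.sum_le_sum_of_subset (Finset.filter_subset _ _))
  obtain ⟨s, hsd⟩ : ∃ s, s = ∑ i, μ i := ⟨_, rfl⟩
  obtain ⟨Q, hQd⟩ : ∃ Q, Q = ∑ i, μ i ^ 2 := ⟨_, rfl⟩
  rw [← hsd] at hks hcs hs h3
  rw [← hQd] at hcs hxu
  have hs2 : (47 * D + 1) ^ 2 ≤ (16 * s) ^ 2 := Nat.pow_le_pow_left hs 2
  by_cases hk7 : k ≤ 7
  · have h1 : k * Q ≤ k * (D ^ 2 + μ j) := Nat.mul_le_mul_left _ hxu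
    have h2 : k * D ^ 2 ≤ 7 * D ^ 2 := Nat.mul_le_mul_right _ hk7
    have h4 : s ^ 2 ≤ 7 * D ^ 2 + 3 * D := by nlinarith
    nlinarith
  have hk8 : k = 8 := by
    have : k ≤ 8 := by rw [hk]; exact (Finset.card_filter_le _ _).trans (by simp)
    omega
  rw [hk8] at hks
  by_cases hall : ∀ i, μ i = μ j
  · have h1 : s = 8 * μ j := by
      rw [hsd, Finset.sum_congr rfl (fun i _ => hall i)]; simp
    have h2 : Q = 8 * μ j ^ 2 := by
      rw [hQd, Finset.sum_congr rfl (fun i _ => by rw [hall i])]; simp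
    rw [h2] at hxu
    rw [h1] at hs2 hs
    have h4 : 1288 * μ j ≤ 2209 := by
      by_contra hc
      push Not at hc
      nlinarith
    have h5 : μ j = 1 := by omega
    rw [h5] at hxu hs
    have h6 : D ≤ 2 := by omega
    have h7 : D = 2 := by omega
    rw [h7] at hxu
    omega
  · push Not at hall
    obtain ⟨i1, hi1⟩ := hall
    obtain ⟨P, hP⟩ : ∃ P : Finset (Fin 8 × Fin 8), P = Finset.univ.filter
      (fun x => μ x.1 ≠ μ x.2) := ⟨_, rfl⟩
    have hPne : P.Nonempty := ⟨(i1, j), by rw [hP]; simp [hi1]⟩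
    obtain ⟨x, hxP, hxmin⟩ := Finset.exists_min_image P
      (fun x => ((μ x.1 : ℤ) - μ x.2) ^ 2) hPne
    obtain ⟨a, b⟩ := x
    have hab : μ a ≠ μ b := by
      rw [hP] at hxP
      simpa using hxP
    obtain ⟨δ, hδ⟩ : ∃ δ : ℤ, δ = ((μ a : ℤ) - μ b) ^ 2 := ⟨_, rfl⟩
    have hmin : ∀ i k, μ i ≠ μ k → δ ≤ ((μ i : ℤ) - μ k) ^ 2 := by
      intro i k hik
      rw [hδ]
      exact hxmin (i, k) (by rw [hP]; simp [hik])
    have hsZ : (s : ℤ) = ∑ i, (μ i : ℤ) := by rw [hsd]; push_cast; rfl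
    have hQZ : (Q : ℤ) = ∑ i, (μ i : ℤ) ^ 2 := by rw [hQd]; push_cast; rfl
    have hrow : ∀ k, ∑ i, ((μ i : ℤ) - μ k) ^ 2 = Q - 2 * s * μ k + 8 * (μ k : ℤ) ^ 2 := by
      intro k
      have h1 : ∀ i, ((μ i : ℤ) - μ k) ^ 2 = (μ i : ℤ) ^ 2 - (2 * μ k) * μ i + (μ k : ℤ) ^ 2 := by
        intro i; ring
      rw [Finset.sum_congr rfl (fun i _ => h1 i), Finset.sum_add_distrib,
        Finset.sum_sub_distrib, ← Finset.mul_sum, ← hsZ, ← hQZ]
      simp
      ring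
    have htot : ∑ k, ∑ i, ((μ i : ℤ) - μ k) ^ 2 = 16 * Q - 2 * s ^ 2 := by
      rw [Finset.sum_congr rfl (fun k _ => hrow k), Finset.sum_add_distrib,
        Finset.sum_sub_distrib, ← Finset.mul_sum, ← Finset.mul_sum, ← hsZ, ← hQZ]
      simp
      ring
    have hlow : ∀ k, δ ≤ ∑ i, ((μ i : ℤ) - μ k) ^ 2 := by
      intro k
      have hsingle : ∀ i, ((μ i : ℤ) - μ k) ^ 2 ≤ ∑ i, ((μ i : ℤ) - μ k) ^ 2 := fun i =>
        Finset.single_le_sum (f := fun i => ((μ i : ℤ) - μ k) ^ 2) (fun i _ => sq_nonneg _)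
          (Finset.mem_univ i)
      by_cases hak : μ a = μ k
      · have hbk : μ b ≠ μ k := fun h => hab (hak.trans h.symm)
        exact (hmin b k hbk).trans (hsingle b)
      · exact (hmin a k hak).trans (hsingle a)
    have h9 : 8 * δ ≤ 16 * Q - 2 * s ^ 2 := by
      rw [← htot]
      have := Finset.card_nsmul_le_sum Finset.univ
        (fun k => ∑ i, ((μ i : ℤ) - μ k) ^ 2) δ (fun k _ => hlow k)
      simpa using this
    have h10 : (Q : ℤ) ≤ (D : ℤ) ^ 2 + δ := by rw [hQZ, hδ]; exact sw a b hab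
    have h11 : (Q : ℤ) ≤ (D : ℤ) ^ 2 + μ j := by exact_mod_cast hxu
    have h12 : (8 : ℤ) * μ j ≤ s := by exact_mod_cast hks
    have h13 : (s : ℤ) ≤ 3 * D := by exact_mod_cast h3
    have h14 : (47 * (D : ℤ) + 1) ^ 2 ≤ (16 * s) ^ 2 := by exact_mod_cast hs2
    have h15 : (2 : ℤ) ≤ D := by exact_mod_cast hD2
    nlinarith

open Pool.Agent.helper22.SC Pool.Agent.helper89.Exp Pool.Agent.helper25.CF Pool.Agent.KD in
theorem pos_three : Pos 3 1 (fun _ => 1) := by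
  refine ⟨TN one_pos 9, TN_countable one_pos _, TN_ne one_pos _, fun q hq F hF => ?_⟩
  have hV := VGN_of one_pos hq
  have h9 : ∑ i, mult (q i) F ≤ 3 * wdeg 1 F := Pool.Agent.KB.nine_sum hV hF
  have hsplit : ∑ i, mult (q i) F =
      ∑ i : Fin 8, mult (q (Fin.castAdd 1 i)) F + mult (q (Fin.natAdd 8 0)) F := by
    rw [Fin.sum_univ_add (a := 8) (b := 1) (fun i : Fin (8 + 1) => mult (q i) F)]
    simp
  have hD : 0 < wdeg 1 F := Pool.Agent.helper7.SC.wdeg_pos one_pos hF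
  have h8 : 16 * ∑ i : Fin 8, mult (q (Fin.castAdd 1 i)) F ≤ 47 * wdeg 1 F := by
    refine eight_num hD (fun i => Nef0aux.mult_le_deg _ hF.ne_zero) ?_ ?_ (by omega)
    · intro j hj
      have h1 := xuOne hV hF (Fin.castAdd 1 j) hj
      rw [Fin.sum_univ_add (a := 8) (b := 1) (fun i : Fin (8 + 1) => mult (q i) F ^ 2)] at h1
      exact (Nat.le_add_right _ _).trans h1
    · intro i k hik
      have h1 := swOne hV hF hik
      rw [Fin.sum_univ_add (a := 8) (b := 1) (fun i : Fin (8 + 1) => (mult (q i) F : ℤ) ^ 2)] at h1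
      refine le_trans ?_ h1
      exact le_add_of_nonneg_right (Finset.sum_nonneg fun _ _ => sq_nonneg _)
  simp only [one_mul]
  omega

end Pool.Agent.helper25.SXB
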