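import Pool.Agent.helper25.SXB.Pull
import Pool.Agent.helper25.SXB.Three

set_option autoImplicit false

/-!
# Module Crit: the criterion for nefness with big points

`nefPB_of`: as `nefP_of` (ST/Nef0.lean), for `n = 8 + m`: the countable set is the union of the one of
`Pool.Agent.helper7.SC.wxu 1 (8 + m) one_pos`, the sets of `Pos.pull hP j` and `Pos.pull pos_three j`
for `j : Fin m`, and `Set.range (fun x : ℕ × (Fin (8 + m) → ℕ) => Qf x.1 x.2)`. For an irreducible curve
`F`, `β i = mult (q (Fin.castAdd m i)) F`, `μ j = mult (q (Fin.natAdd 8 j)) F`;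
`Fin.append β μ = fun i => mult (q i) F`, `Fin.sum_univ_add`, `map_append'`. `Curve.three` from
`Pos.pull pos_three j` for `j = ⟨0, hm⟩` (first part: `∑ β + μ j ≤ 3 e`).
-/

namespace Pool.Agent.helper25.SXB

open MvPolynomial Pool.Agent.helper5.NBS Pool.Agent.helper89.Segre Pool.Agent.SH9
  Pool.Agent.helper25.ST

open Pool.Agent.helper25.ST.Nef0aux in
theorem nefPB_of {D X m : ℕ} {b : Fin 8 → ℕ} (v : Fin m → ℕ) (hm : 0 < m) (hP : Pos D X b)
    (H : ∀ (e : ℕ) (β : Fin 8 → ℕ) (μ : Fin m → ℕ), Curve D X b e β μ →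
      D * e < ∑ i, b i * β i + ∑ i, v i * μ i → E e (Bm β + Finset.univ.val.map μ)) :
    NefP D (Fin.append b v) := by
  obtain ⟨T, hT, hT0, hTp⟩ := Pool.Agent.helper7.SC.wxu 1 (8 + m) one_pos
  choose P1 hP1 hP1n hP1p using fun j : Fin m => Pos.pull hP j
  choose P2 hP2 hP2n hP2p using fun j : Fin m => Pos.pull pos_three j
  refine ⟨T ∪ (⋃ j, P1 j) ∪ (⋃ j, P2 j) ∪
    Set.range (fun x : ℕ × (Fin (8 + m) → ℕ) => Qf x.1 x.2),
    ((hT.union (Set.countable_iUnion hP1)).union (Set.countable_iUnion hP2)).union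
      (Set.countable_range _), ?_, ?_⟩
  · rintro Q (((hQ | hQ) | hQ) | ⟨x, rfl⟩)
    · exact hT0 Q hQ
    · obtain ⟨j, hj⟩ := Set.mem_iUnion.mp hQ
      exact hP1n j Q hj
    · obtain ⟨j, hj⟩ := Set.mem_iUnion.mp hQ
      exact hP2n j Q hj
    · exact Qf_ne _ _
  · intro q hq
    obtain ⟨hinj, hirr⟩ := hTp q (fun Q hQ => hq Q (Or.inl (Or.inl (Or.inl hQ))))
    refine ⟨hinj, nef_of_irred ?_⟩
    intro F hF
    by_contra hcon
    push Not at hcon
    have hF0 := hF.ne_zero
    set β : Fin 8 → ℕ := fun i => mult (q (Fin.castAdd m i)) F with hβ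
    set μ : Fin m → ℕ := fun j => mult (q (Fin.natAdd 8 j)) F with hμ
    have happ : Fin.append β μ = fun i => mult (q i) F := by
      funext i
      refine Fin.addCases (fun i => ?_) (fun i => ?_) i
      · rw [Fin.append_left]
      · rw [Fin.append_right]
    have hstd : ∀ j, ∑ i, b i * β i + X * μ j ≤ D * wdeg 1 F := fun j =>
      (hP1p j q (fun Q hQ => hq Q (Or.inl (Or.inl (Or.inr (Set.mem_iUnion.mpr ⟨j, hQ⟩))))) F
        hF).1
    have hth : ∑ i, β i ≤ 3 * wdeg 1 F := by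
      have h := (hP2p ⟨0, hm⟩ q (fun Q hQ => hq Q (Or.inl (Or.inr
        (Set.mem_iUnion.mpr ⟨⟨0, hm⟩, hQ⟩)))) F hF).1
      simp only [one_mul] at h
      exact le_trans (Nat.le_add_right _ _) h
    have hc : Curve D X b (wdeg 1 F) β μ := by
      refine ⟨Pool.Agent.helper7.SC.wdeg_pos one_pos hF, ?_, fun j => mult_le_deg _ hF0,
        fun i => mult_le_deg _ hF0, hth, hstd⟩
      intro j hj
      have h := (hirr F hF).1 (Fin.natAdd 8 j) hj
      simp only [one_mul] at h
      have h2 : ∑ i, mult (q i) F ^ 2 = ∑ i, β i ^ 2 + ∑ i, μ i ^ 2 := by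
        rw [Fin.sum_univ_add]
      rw [← h2]
      simpa using h
    have hv : D * wdeg 1 F < ∑ i, b i * β i + ∑ i, v i * μ i := by
      have h2 : ∑ i, Fin.append b v i * mult (q i) F = ∑ i, b i * β i + ∑ i, v i * μ i := by
        rw [Fin.sum_univ_add]
        simp only [Fin.append_left, Fin.append_right, hβ, hμ]
      rw [← h2]
      exact hcon
    have h1 := H _ β μ hc hv
    rw [← map_append', happ] at h1
    have h2 := Qf_emp h1 (hq _ (Or.inr ⟨(wdeg 1 F, fun i => mult (q i) F), rfl⟩))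
    exact hF0 (h2 F le_rfl (fun i => (mem_pow_iff_le_mult hF0).mpr le_rfl))

end Pool.Agent.helper25.SXB
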