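import Pool.Agent.helper25.SXB.Defs

set_option autoImplicit false

/-!
# Module Drop: points of multiplicity zero can be dropped

`Good` and `HasRank` are defined in helper89/Segre/Rank.lean: remove the entries of `L` with multiplicity zero,
they impose no conditions.
-/

namespace Pool.Agent.helper25.SXB

open MvPolynomial Pool.Agent.helper5.NBS Pool.Agent.helper89.Segre Pool.Agent.SH9
  Pool.Agent.helper25.ST

private lemma phi_erase_le {L : Multiset ((ℂ × ℂ) × ℕ)} {x : (ℂ × ℂ) × ℕ} (hx : x.2 = 0)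
    [DecidableEq ((ℂ × ℂ) × ℕ)] : Phi L ≤ Phi (L.erase x) := by
  unfold Phi
  rw [Submodule.span_le]
  rintro φ ⟨y, hy, ij, hij, rfl⟩
  have hne : y ≠ x := by
    rintro rfl
    rw [hx, mem_idx] at hij
    omega
  exact Submodule.subset_span ⟨y, (Multiset.mem_erase_of_ne hne).2 hy, ij, hij, rfl⟩

private lemma good_drop_one {D : Finset (ℕ × ℕ)} {ms : Multiset ℕ} {r : ℕ}
    (h : Good ℂ D (0 ::ₘ ms) r) : Good ℂ D ms r := by
  classical
  obtain ⟨L, h1, h2, h3⟩ := h
  obtain ⟨x, hx, hx2, hx3⟩ := (Multiset.map_eq_cons _ _ _ _).mpr h1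
  exact ⟨L.erase x, hx3, fun z hz => h2 z (Multiset.mem_of_mem_erase hz),
    h3.mono (le_refl _) (phi_erase_le hx2)⟩

theorem good_drop_zero {D : Finset (ℕ × ℕ)} {ms : Multiset ℕ} {r k : ℕ}
    (h : Good ℂ D (ms + Multiset.replicate k 0) r) : Good ℂ D ms r := by
  induction k with
  | zero => simpa using h
  | succ k ih =>
    apply ih
    apply good_drop_one
    rw [Multiset.replicate_succ, Multiset.add_cons] at h
    exact h

end Pool.Agent.helper25.SXB
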