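import Pool.Agent.helper25.SXB.Defs
import Pool.Agent.helper25.ST.FinP
import Pool.Agent.helper25.ST.FinN

set_option autoImplicit false

/-!
# Module FinN: the final configuration with big points, empty case (`finNB`)

Notation: `C = C(d+2,2)`, `2 C = d² + 3 d + 2` (`two_choose`), `2 cd (Bm b) = ∑ b² + ∑ b` (`two_cd_Bm`),
`2 cd ms + S1 ms = S2 ms` (`two_cd`).
`finRB` (as ST/FinR.lean, with `goodP` of ST/FinP.lean): enumeration `m` of `ms` (`exists_fin`), `D = d + 3`,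
weights `Fin.append (b + 1) (m + 1)`: the first part of `NefTB` needs
`∑ (b+1)² + S2 ms + Δ ≤ (d+3)²`: `∑ (b+1)² = 2 cd b + ∑ b + 8`, so
`(d+3)² - ∑ (b+1)² - S2 ms = 2 (C - cd b - cd ms) - S1 ms + (3 d - ∑ b) - 1 ≥ S1 ms + 2 Δ - 1 ≥ Δ`.
`goodP` for the family `Fin.append b m`: `hbig` (strict: `S1 ms ≥ 1`, `Δ ≥ 1`), `hex`: total
`2 ∑ C(m+2,2) = 2 (cd b + cd ms + S1 ms) + 2 ∑ b + 16 ≤ d² + 9 d + 16 < (d+4)(d+5)`. Then
`E_ones_of_good`.
`finNB` (as ST/FinN.lean): enumeration `m` of `ms + replicate s 1` (nonempty by `hne`),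
`Sg = ∑ b² + ∑ m²`; `numN` (ST/FinN.lean) needs `d² + 2 d + Δ + 1 ≤ Sg`. If `w ≤ s`:
`∑ b² + ∑ b + ∑ T² + S1 ≥ 2 cd b + 2 cd ms ≥ 2 C - 2 S1 - 2 Δ + 2` (`sq_ge`), so
`Sg ≥ d² + 3 d + 4 - ∑ b - 3 S1 - 2 Δ + w ≥ d² + 4 - 3 A - 2 Δ + w`. If `C + w ≤ cd b + cd ms + s`:
`Sg ≥ (cd b + cd ms + s) + (cd b + cd ms) - ∑ b - S1 ≥ 2 C + w - 2 S1 - Δ - ∑ b`. Second part of `NefTB` with
`D = Nat.sqrt (Sg + Δ) + 1`, then `finN'` (ST/FinP.lean) for `Fin.append b m`.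
-/

namespace Pool.Agent.helper25.SXB

open MvPolynomial Pool.Agent.helper5.NBS Pool.Agent.helper89.Segre Pool.Agent.SH9
  Pool.Agent.helper25.ST

theorem finNB {d W Δ A w s : ℕ} {b : Fin 8 → ℕ} {ms : Multiset ℕ} (hW : 1 ≤ W)
    (hNef : NefTB d b W Δ) (h3 : ∑ i, b i ≤ 3 * d)
    (hms : ∀ μ ∈ ms, μ + 1 ≤ W) (hA : S1 ms ≤ A) (hw : 3 * A + 3 * Δ + 2 * d + 1 ≤ w)
    (hR : (d + 2).choose 2 < cd (Bm b) + cd ms + S1 ms + Δ)
    (hne : 0 < Multiset.card ms + s)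
    (h : w ≤ s ∨ (d + 2).choose 2 + w ≤ cd (Bm b) + cd ms + s) :
    E d (Bm b + (ms + Multiset.replicate s 1)) := by
  classical
  obtain ⟨n, m, hm⟩ : ∃ n : ℕ, ∃ m : Fin n → ℕ,
      Finset.univ.val.map m = ms + Multiset.replicate s 1 := ⟨_, exists_fin _⟩
  have hn : 0 < n := by
    have h1 : Multiset.card (Finset.univ.val.map m) = n := by simp
    rw [hm, Multiset.card_add, Multiset.card_replicate] at h1
    omega
  have hsum : ∑ i, m i ^ 2 = (ms.map fun μ => μ ^ 2).sum + s := by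
    have h1 : ∑ i, m i ^ 2 = ((Finset.univ.val.map m).map fun μ => μ ^ 2).sum := by
      rw [Multiset.map_map]
      rfl
    rw [h1, hm, Multiset.map_add, Multiset.sum_add, Multiset.map_replicate, Multiset.sum_replicate]
    simp
  have e1 := sq_ge ms
  have e2 := two_choose d
  have e4 := two_cd_Bm b
  have hbig : d ^ 2 + 2 * d + Δ + 1 ≤ ∑ i, b i ^ 2 + ∑ i, m i ^ 2 := by
    rw [hsum]
    have e3 : (d + 1) * (d + 2) = d ^ 2 + 3 * d + 2 := by ring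
    rcases h with h | h <;> omega
  obtain ⟨n1, n2, n3⟩ := numN hbig
  have hwt : ∀ i, m i ≤ W := by
    intro i
    have h1 : m i ∈ ms + Multiset.replicate s 1 := by
      rw [← hm]
      exact Multiset.mem_map_of_mem m (Finset.mem_univ_val i)
    rcases Multiset.mem_add.mp h1 with h2 | h2
    · have := hms _ h2
      omega
    · rw [Multiset.eq_of_mem_replicate h2]
      exact hW
  have hP := hNef.2 n m hn hwt _ n2 n3
  rw [← hm, ← map_append']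
  refine finN' hP ?_
  rw [sum_append_sq]
  exact n1

end Pool.Agent.helper25.SXB
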