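import Pool.Agent.helper25.SXB.FinR
import Pool.Agent.helper25.SXB.FinN

set_option autoImplicit false

/-!
# The final configuration with big points
-/

namespace Pool.Agent.helper25.SXB

open MvPolynomial Pool.Agent.helper5.NBS Pool.Agent.helper89.Segre Pool.Agent.SH9
  Pool.Agent.helper25.ST

theorem finB {d W Δ A w s : ℕ} {b : Fin 8 → ℕ} {ms : Multiset ℕ} (hW : 2 ≤ W) (hΔ : 1 ≤ Δ)
    (hNef : NefTB d b W Δ) (h3 : ∑ i, b i ≤ 3 * d) (hbC : cd (Bm b) + 3 + Δ ≤ (d + 2).choose 2)
    (hms : ∀ μ ∈ ms, μ + 1 ≤ W) (hA : S1 ms ≤ A) (hw : 3 * A + 3 * Δ + 2 * d + 1 ≤ w)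
    (ht : (d + 2).choose 2 ≤ cd (Bm b) + cd ms + s)
    (h : w ≤ s ∨ (d + 2).choose 2 + w ≤ cd (Bm b) + cd ms + s) :
    E d (Bm b + (ms + Multiset.replicate s 1)) := by
  rcases Nat.lt_or_ge ((d + 2).choose 2) (cd (Bm b) + cd ms + S1 ms + Δ) with h1 | h1
  · refine finNB (by omega) hNef h3 hms hA hw h1 ?_ h
    by_contra hcon
    have hs : s = 0 := by omega
    have hc : ms = 0 := by
      rw [← Multiset.card_eq_zero]
      omega
    subst hc
    rw [cd_zero, S1_zero] at h1
    omega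
  · by_cases hne : ms = 0
    · subst hne
      rw [cd_zero] at ht
      have hs : 1 ≤ s := by omega
      obtain ⟨s', rfl⟩ : ∃ s', s = s' + 1 := ⟨s - 1, by omega⟩
      have c1 : cd ({1} : Multiset ℕ) = 1 := by simp [cd, kk_one]
      have c2 : S1 ({1} : Multiset ℕ) = 2 := by simp [S1]
      have := finRB (ms := {1}) (s := s') hΔ hNef h3
        (by intro μ hμ; rw [Multiset.mem_singleton] at hμ; omega) (by simp)
        (by rw [c1, c2]; omega) (by rw [c1]; omega)
      have he : ({1} : Multiset ℕ) + Multiset.replicate s' 1 =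
          0 + Multiset.replicate (s' + 1) 1 := by
        rw [zero_add, Multiset.replicate_succ, Multiset.singleton_add]
      rwa [he] at this
    · exact finRB hΔ hNef h3 hms hne h1 ht

end Pool.Agent.helper25.SXB
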