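import Mathlib

set_option autoImplicit false

/-!
# Module NumUp: the numbers for the nefness of level 1 (pure inequalities)

Real numbers `s = √(NF / N)`, `y = s W ≥ 6 / 7` (`hy`), `μ i ≤ 13 y / 6`, `NF < ∑ μ² ≤ 2 NF`,
`s Δ ≤ 7 W / 6`, `e ≤ 1.1 s D` (`hdeg`). Choose
`W' = ⌈1000 y⌉` (`≤ 1002 y`), `Φ = ⌈(9/4) ∑ μ²⌉ ≤ 5 NF`, `A = ⌈(3 Φ + 3 (√(9 W') + 1) W'²) / W'⌉`,
`w' = 3 A + 6 W'² + 2 e + 1`, `X' = 10⁴ W'`.
* `4 X'² N ≤ NF X²`: `X' ≤ 1.002 * 10⁷ s W ≤ s X / 2` as `X ≥ 10⁸ W`.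
* `4 W'² + 6 ≤ NF`: `4 W'² ≤ 5 * 10⁶ y²` and `NF ≥ 8 * 10⁹ y³` (see below).
* `2 X' e ≤ NF`: `NF = s² N ≥ s² X D ≥ s X e / 1.1 ≥ 2 X' e`.
* last conclusion: `∑ μ ≥ ∑ μ² / max μ ≥ 6 NF / (13 y)`;
  `3 e + 2 + 2 w' ≤ 0.09 NF / y + 2.4 * 10⁶ y^(3/2) + 1.3 * 10⁷ y² + 7 e + 12`. Here
  `NF / y³ = N / (s W³) ≥ (6 / 7) 10¹⁰` (`s ≤ 7 W / (6 Δ)`, `10¹⁰ W⁴ ≤ Δ N`), so `y² ≤ 10⁻⁹ (NF / y)`, and
  `NF / y = s N / W ≥ s X D / W ≥ 10⁸ s D ≥ 10⁸ e / 1.1`. Everything is at most `(1/5) NF / y`.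
Compare ST/NumUp1.lean (there with `e²`, `D²` instead of `NF`, `N`).
-/

namespace Pool.Agent.helper25.SXB

theorem numUpB {m : ℕ} (μ : Fin m → ℕ) (D X W Δ N NF e : ℕ) (hW : 1 ≤ W) (hX : 10 ^ 8 * W ≤ X)
    (hXN : X * D ≤ N) (hN0 : 0 < N) (hNF0 : 0 < NF) (hΔ : 10 ^ 10 * W ^ 4 ≤ Δ * N)
    (hmax : ∀ i, 36 * (μ i ^ 2 * N) ≤ 169 * (NF * W ^ 2)) (hv : 36 * (NF * Δ ^ 2) ≤ 49 * (W ^ 2 * N))
    (hlt : NF < ∑ i, μ i ^ 2) (hy : 36 * N ≤ 49 * (NF * W ^ 2)) (hsq : ∑ i, μ i ^ 2 ≤ 2 * NF)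
    (hdeg : 100 * (e ^ 2 * N) ≤ 121 * (NF * D ^ 2)) (he : 0 < e) :
    ∃ W' Φ A w' X' : ℕ, 2 ≤ W' ∧ 4 * W' ^ 2 + 6 ≤ NF ∧ 10 ^ 4 * W' ≤ X' ∧ 4 * (X' ^ 2 * N) ≤ NF * X ^ 2 ∧
      2 * (X' * e) ≤ NF ∧ (∀ i, μ i + 1 ≤ W') ∧ 9 * ∑ i, μ i ^ 2 ≤ 4 * Φ ∧
      3 * Φ + 3 * (Nat.sqrt (9 * W') + 1) * W' ^ 2 ≤ W' * A ∧
      3 * A + 3 * (2 * W' ^ 2) + 2 * e + 1 ≤ w' ∧
      NF + 3 * e + 2 + 2 * w' ≤ ∑ i, μ i ^ 2 + ∑ i, μ i := by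
  have rW : (1 : ℝ) ≤ W := by exact_mod_cast hW
  have rW0 : (0 : ℝ) < W := by linarith
  have rN0 : (0 : ℝ) < N := by exact_mod_cast hN0
  have rF0 : (0 : ℝ) < NF := by exact_mod_cast hNF0
  have re1 : (1 : ℝ) ≤ e := by exact_mod_cast he
  have rD0 : (0 : ℝ) ≤ D := Nat.cast_nonneg D
  have rΔ0 : (0 : ℝ) ≤ Δ := Nat.cast_nonneg Δ
  -- the number `s`
  obtain ⟨s, hs0, hs⟩ : ∃ s : ℝ, 0 < s ∧ (NF : ℝ) = s ^ 2 * N := by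
    refine ⟨√((NF : ℝ) / N), Real.sqrt_pos.2 (div_pos rF0 rN0), ?_⟩
    rw [Real.sq_sqrt (div_pos rF0 rN0).le]
    field_simp
  obtain ⟨y, hyd⟩ : ∃ y : ℝ, y = s * W := ⟨_, rfl⟩
  have hy0 : 0 < y := by rw [hyd]; positivity
  -- `6 / 7 ≤ y`
  have hy1 : 6 ≤ 7 * y := by
    have h : (36 : ℝ) * N ≤ 49 * (NF * W ^ 2) := by exact_mod_cast hy
    rw [hs] at h
    have h2 : (6 : ℝ) ^ 2 * N ≤ (7 * y) ^ 2 * N := by rw [hyd]; linarith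
    have h3 := le_of_mul_le_mul_right h2 rN0
    exact (pow_le_pow_iff_left₀ (by norm_num) (by positivity) (by norm_num)).1 h3
  -- `6 μ ≤ 13 y`
  have hμ : ∀ i, 6 * (μ i : ℝ) ≤ 13 * y := by
    intro i
    have h : (36 : ℝ) * (μ i ^ 2 * N) ≤ 169 * (NF * W ^ 2) := by exact_mod_cast hmax i
    rw [hs] at h
    have h2 : (6 * (μ i : ℝ)) ^ 2 * N ≤ (13 * y) ^ 2 * N := by rw [hyd]; linarith
    have h3 := le_of_mul_le_mul_right h2 rN0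
    exact (pow_le_pow_iff_left₀ (by positivity) (by positivity) (by norm_num)).1 h3
  -- `6 s Δ ≤ 7 W`
  have hsΔ : 6 * (s * Δ) ≤ 7 * W := by
    have h : (36 : ℝ) * (NF * Δ ^ 2) ≤ 49 * (W ^ 2 * N) := by exact_mod_cast hv
    rw [hs] at h
    have h2 : (6 * (s * Δ)) ^ 2 * N ≤ (7 * (W : ℝ)) ^ 2 * N := by linarith
    have h3 := le_of_mul_le_mul_right h2 rN0
    exact (pow_le_pow_iff_left₀ (by positivity) (by positivity) (by norm_num)).1 h3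
  -- `10 e ≤ 11 s D`
  have heD : 10 * (e : ℝ) ≤ 11 * (s * D) := by
    have h : (100 : ℝ) * (e ^ 2 * N) ≤ 121 * (NF * D ^ 2) := by exact_mod_cast hdeg
    rw [hs] at h
    have h2 : (10 * (e : ℝ)) ^ 2 * N ≤ (11 * (s * D)) ^ 2 * N := by linarith
    have h3 := le_of_mul_le_mul_right h2 rN0
    exact (pow_le_pow_iff_left₀ (by positivity) (by positivity) (by norm_num)).1 h3
  -- `NF / y ^ 3` is large
  have hQ : 6 * 10 ^ 10 * y ^ 3 ≤ 7 * NF := by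
    have h : (10 : ℝ) ^ 10 * W ^ 4 ≤ Δ * N := by exact_mod_cast hΔ
    have h2 : 6 * s ^ 3 * ((10 : ℝ) ^ 10 * W ^ 4) ≤ 6 * s ^ 3 * (Δ * N) :=
      mul_le_mul_of_nonneg_left h (by positivity)
    have h3 : 6 * (s * Δ) * (s ^ 2 * N) ≤ 7 * W * (s ^ 2 * N) :=
      mul_le_mul_of_nonneg_right hsΔ (by positivity)
    have h4 : (6 * 10 ^ 10 * y ^ 3) * W ≤ (7 * NF) * W := by
      rw [hyd, hs]
      calc (6 * 10 ^ 10 * (s * (W : ℝ)) ^ 3) * W = 6 * s ^ 3 * ((10 : ℝ) ^ 10 * W ^ 4) := by ring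
        _ ≤ 6 * s ^ 3 * (Δ * N) := h2
        _ = 6 * (s * Δ) * (s ^ 2 * N) := by ring
        _ ≤ 7 * W * (s ^ 2 * N) := h3
        _ = (7 * (s ^ 2 * N)) * W := by ring
    exact le_of_mul_le_mul_right h4 rW0
  -- `X`
  have rX : (10 : ℝ) ^ 8 * W ≤ X := by exact_mod_cast hX
  have rXN : (X : ℝ) * D ≤ N := by exact_mod_cast hXN
  have hWD : (10 : ℝ) ^ 8 * W * D ≤ N := le_trans (mul_le_mul_of_nonneg_right rX rD0) rXN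
  -- `10 ^ 9 e y ≤ 11 NF`
  have hey : 10 ^ 9 * ((e : ℝ) * y) ≤ 11 * NF := by
    have h := mul_le_mul_of_nonneg_right heD hy0.le
    have h2 : s ^ 2 * (10 ^ 8 * W * D) ≤ s ^ 2 * (N : ℝ) :=
      mul_le_mul_of_nonneg_left hWD (by positivity)
    rw [hs]
    rw [hyd] at h ⊢
    nlinarith
  -- the number `W'`
  obtain ⟨W', hW'⟩ : ∃ W' : ℕ, W' = ⌈1000 * y⌉₊ := ⟨_, rfl⟩
  have hlo : 1000 * y ≤ W' := by rw [hW']; exact Nat.le_ceil _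
  have hhi : (W' : ℝ) ≤ 1002 * y := by
    have h : (W' : ℝ) < 1000 * y + 1 := by rw [hW']; exact Nat.ceil_lt_add_one (by positivity)
    linarith
  have hW2 : 2 ≤ W' := by
    have h : (2 : ℝ) ≤ W' := by linarith
    exact_mod_cast h
  have hW1 : 1 ≤ W' := by omega
  have rW'0 : (0 : ℝ) < W' := by
    have h : (2 : ℝ) ≤ W' := by exact_mod_cast hW2
    linarith
  have hWsq : (W' : ℝ) ^ 2 ≤ 1002 ^ 2 * y ^ 2 := by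
    have h := pow_le_pow_left₀ rW'0.le hhi 2
    linarith [mul_pow (1002 : ℝ) y 2]
  -- the number `Q = NF / y`
  obtain ⟨Q, hQd⟩ : ∃ Q : ℝ, Q = NF / y := ⟨_, rfl⟩
  have hQy : (NF : ℝ) = Q * y := by rw [hQd]; field_simp
  have hQ2 : 6 * 10 ^ 10 * y ^ 2 ≤ 7 * Q := by
    have h : (6 * 10 ^ 10 * y ^ 2) * y ≤ (7 * Q) * y := by rw [hQy] at hQ; linarith
    exact le_of_mul_le_mul_right h hy0
  have heQ : 10 ^ 9 * (e : ℝ) ≤ 11 * Q := by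
    have h : (10 ^ 9 * (e : ℝ)) * y ≤ (11 * Q) * y := by rw [hQy] at hey; linarith
    exact le_of_mul_le_mul_right h hy0
  -- `∑ μ` is large
  have hsum : 6 * Q ≤ 13 * (∑ i, μ i : ℕ) := by
    have h : ∀ i, 6 * ((μ i : ℝ)) ^ 2 ≤ 13 * y * μ i := by
      intro i
      have h2 := mul_le_mul_of_nonneg_right (hμ i) (Nat.cast_nonneg (μ i) : (0 : ℝ) ≤ μ i)
      linarith [sq (μ i : ℝ)]
    have h2 : 6 * ∑ i, ((μ i : ℝ)) ^ 2 ≤ 13 * y * ∑ i, (μ i : ℝ) := by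
      rw [Finset.mul_sum, Finset.mul_sum]
      exact Finset.sum_le_sum fun i _ => h i
    have h3 : (NF : ℝ) ≤ ∑ i, ((μ i : ℝ)) ^ 2 := by exact_mod_cast hlt.le
    have h4 : (6 * Q) * y ≤ (13 * ((∑ i, μ i : ℕ) : ℝ)) * y := by
      push_cast
      rw [hQy] at h3
      linarith
    exact le_of_mul_le_mul_right h4 hy0
  -- the number `A`
  obtain ⟨t, ht⟩ : ∃ t : ℕ, t = Nat.sqrt (9 * W') := ⟨_, rfl⟩
  have ht3 : t ≤ 3 * W' := by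
    rw [ht]
    have h : Nat.sqrt (9 * W') ≤ Nat.sqrt ((3 * W') * (3 * W')) := by
      apply Nat.sqrt_le_sqrt
      nlinarith
    rwa [Nat.sqrt_eq] at h
  obtain ⟨A, hA⟩ : ∃ A : ℕ, A = (3 * (5 * NF) + 3 * (t + 1) * W' ^ 2) / W' + 1 := ⟨_, rfl⟩
  have hA1 : 3 * (5 * NF) + 3 * (t + 1) * W' ^ 2 ≤ W' * A := by
    rw [hA]
    exact (Nat.lt_mul_div_succ _ hW1).le
  have hA2 : (A : ℝ) ≤ 15 / 1000 * Q + 12 * W' ^ 2 + 1 := by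
    have h : W' * A ≤ 3 * (5 * NF) + 3 * (t + 1) * W' ^ 2 + W' := by
      rw [hA, mul_add, mul_one]
      exact Nat.add_le_add_right (Nat.mul_div_le _ _) _
    have h2 : (W' : ℝ) * A ≤ 3 * (5 * NF) + 3 * (t + 1) * W' ^ 2 + W' := by exact_mod_cast h
    have rW1 : (1 : ℝ) ≤ W' := by exact_mod_cast hW1
    have h3 : ((t : ℝ) + 1) ≤ 4 * W' := by
      have : (t : ℝ) ≤ 3 * W' := by exact_mod_cast ht3
      linarith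
    have h4 : ((t : ℝ) + 1) * W' ^ 2 ≤ 4 * W' * W' ^ 2 :=
      mul_le_mul_of_nonneg_right h3 (by positivity)
    have hQ0 : 0 < Q := by rw [hQd]; positivity
    have h5 : Q * (1000 * y) ≤ Q * W' := mul_le_mul_of_nonneg_left hlo hQ0.le
    have h6 : (A : ℝ) * W' ≤ (15 / 1000 * Q + 12 * W' ^ 2 + 1) * W' := by
      have h7 : (15 / 1000 * Q + 12 * (W' : ℝ) ^ 2 + 1) * W' =
        15 / 1000 * (Q * W') + 12 * (W' * (W' : ℝ) ^ 2) + W' := by ring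
      have h8 : (15 : ℝ) * NF = 15 / 1000 * (Q * (1000 * y)) := by rw [hQy]; ring
      rw [h7]
      linarith
    exact le_of_mul_le_mul_right h6 rW'0
  refine ⟨W', 5 * NF, A, 3 * A + 3 * (2 * W' ^ 2) + 2 * e + 1, 10 ^ 4 * W', hW2, ?_, le_rfl, ?_, ?_,
    ?_, ?_, ?_, le_rfl, ?_⟩
  · -- `4 W' ^ 2 + 6 ≤ NF`
    have h : 4 * (W' : ℝ) ^ 2 + 6 ≤ NF := by
      have h1 : 0 ≤ (7 * y - 6) * y ^ 2 := mul_nonneg (by linarith) (by positivity)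
      have h2 : 0 ≤ (7 * y - 6) * y := mul_nonneg (by linarith) (by positivity)
      nlinarith
    exact_mod_cast h
  · -- `4 X' ^ 2 N ≤ NF X ^ 2`
    have h : (4 : ℝ) * ((10 ^ 4 * W') ^ 2 * N) ≤ NF * X ^ 2 := by
      have h1 : ((10 : ℝ) ^ 8 * W) ^ 2 ≤ X ^ 2 := pow_le_pow_left₀ (by positivity) rX 2
      have h2 : (NF : ℝ) * (10 ^ 8 * W) ^ 2 ≤ NF * X ^ 2 := mul_le_mul_of_nonneg_left h1 rF0.le
      have h3 : (W' : ℝ) ^ 2 * N ≤ 1002 ^ 2 * y ^ 2 * N := mul_le_mul_of_nonneg_right hWsq rN0.le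
      have h4 : (0 : ℝ) ≤ s ^ 2 * W ^ 2 * N := by positivity
      rw [hs] at h2 ⊢
      rw [hyd] at h3
      nlinarith
    exact_mod_cast h
  · -- `2 X' e ≤ NF`
    have h : (2 : ℝ) * (10 ^ 4 * W' * e) ≤ NF := by
      have h1 : (W' : ℝ) * e ≤ 1002 * y * e := mul_le_mul_of_nonneg_right hhi (by linarith)
      nlinarith
    exact_mod_cast h
  · intro i
    have h : (μ i : ℝ) + 1 ≤ W' := by linarith [hμ i]
    exact_mod_cast h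
  · omega
  · rw [← ht]
    exact hA1
  · have h : (NF : ℝ) + 3 * e + 2 + 2 * (3 * A + 3 * (2 * W' ^ 2) + 2 * e + 1) ≤
        NF + 1 + (∑ i, μ i : ℕ) := by
      linarith
    have h2 : NF + 3 * e + 2 + 2 * (3 * A + 3 * (2 * W' ^ 2) + 2 * e + 1) ≤
        NF + 1 + ∑ i, μ i := by exact_mod_cast h
    omega

end Pool.Agent.helper25.SXB
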