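import Pool.Agent.helper25.SXB.Nef0
import Pool.Agent.helper25.SXB.NefT
import Pool.Agent.helper25.SXB.NumUp
import Pool.Agent.helper25.SXB.ProcE

set_option autoImplicit false

/-!
# Module Nef1: nefness of level 1 with big points (`nefB1`)

`nefB1`: `nefPB_of`, `numVB`, `Near.deg`, `numUpB`; `Near.pos` with `X'`; `nefTB_of_lev nefB0` with
`W'`, `Δ = 2 W'²`; `procEB`. `hbC`: `2 C - 2 cd (Bm β) = NF + 3 e + 2 - ∑ β ≥ NF + 2 ≥ 2 (3 + 2 W'²)`.
`0 < N`: as `Δ N ≥ 10¹⁰ W⁴ > 0`.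
-/

namespace Pool.Agent.helper25.SXB

open MvPolynomial Pool.Agent.helper5.NBS Pool.Agent.helper89.Segre Pool.Agent.SH9
  Pool.Agent.helper25.ST

theorem nefB1 : Lev (10 ^ 8) (fun W Δ N => 10 ^ 10 * W ^ 4 ≤ Δ * N) := by
  intro D X W Δ N m b v hm hW hX hP hN hXN hΔ hv hsq
  have hN0 : 0 < N := by
    rcases Nat.eq_zero_or_pos N with h | h
    · exfalso
      have h1 : 0 < 10 ^ 10 * W ^ 4 := by positivity
      have h2 : 10 ^ 10 * W ^ 4 ≤ Δ * N := hΔ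
      rw [h, Nat.mul_zero] at h2
      omega
    · exact h
  have hX4 : 10 ^ 4 * W ≤ X := le_trans (Nat.mul_le_mul_right W (by norm_num)) hX
  have hX2 : 100 * W ≤ X := le_trans (Nat.mul_le_mul_right W (by norm_num)) hX
  refine nefPB_of v hm hP ?_
  intro e β μ hc viol
  obtain ⟨NF, hNF0, hnear, c1, c2, c3, c4, c5⟩ := numVB hm hc hW hX4 hN hN0 hv hsq viol
  obtain ⟨W', Φ, A, w', X', hW', hW4, hX', hXX, hXe, hμ, hΦ, hA, hw, hfin⟩ :=
    numUpB μ D X W Δ N NF e hW hX hXN hN0 hNF0 hΔ c1 c2 c3 c4 c5 (hnear.deg hN0) hc.pos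
  have hPe : Pos e X' β := hnear.pos hP hW hX2 hN0 hXX
  have hNe : NefTB e β W' (2 * W' ^ 2) :=
    nefTB_of_lev nefB0 (fun _ _ _ h => h) (by norm_num) (by omega) hX' hPe hnear.hNF hNF0
      hc.three hXe le_rfl (by omega)
  have e1 := two_cd_Bm β
  have e2 := two_choose e
  have e3 : (e + 1) * (e + 2) = e ^ 2 + 3 * e + 2 := by ring
  have e4 := hnear.hNF
  have e5 := hc.three
  have hW2 : 1 ≤ W' ^ 2 := Nat.one_le_pow _ _ (by omega)
  refine procEB hW' (by omega) hNe hc.three (by omega) hA hw μ hμ hΦ ?_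
  omega

end Pool.Agent.helper25.SXB
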