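import Pool.Agent.helper25.SXB.Induct
import Pool.Agent.helper25.SXB.Nef1
import Pool.Agent.helper25.SX.Exist
import Pool.Agent.helper25.ST.Main

set_option autoImplicit false

/-!
# Module FinE: near-critical systems (`exactEB`; compare SX/FinM.lean)

`exactEB`: `split ms` as in `exactE` (SX/FinM.lean). `NefTB d b W Δ` is `nefTB_of_lev nefB1` with `e = d`,
`X = 10 ^ 8 * W`, `NF = N`. `WinB d (Bm b) W (5 N) w` is `procB` (`U = W`; `P d (ms + Bm b) s` and the conclusion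
of `procB` differ by `add_comm`, `add_assoc`); `hbC`: `2 C - 2 cd (Bm b) = N + 3 d + 2 - ∑ b ≥ N + 2 ≥ 6 + 2 Δ`
(`two_cd_Bm`, `4 w ≤ N`). `S2 a ≤ 5 N`: `2 S2 a ≤ 9 cd a` (`split`), `cd a ≤ C - cd (Bm b) + W²`,
`2 (C - cd (Bm b)) ≤ N + 3 d + 2`, `10 ^ 10 d ≤ N`, `100 W² ≤ N`. If `w ≤ s + v`: `WinB`. Otherwise
`cd a ≥ C - cd (Bm b) - w`, `(M + 1) S1 a ≥ 2 cd a ≥ N - 2 w ≥ N / 2`, `inductB` (with `exist`).
`exactMB`: `std_three`, `std_N`, `std_pos` (`X = 10 ^ 8 * W ≤ Y`), `Y ≤ d` (`h2 0 1`), `numXB`; regular half: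
`exactEB` with `v = C - cd (Bm b) - cd ms`, `good_of_E_ones`; empty half: `exists_sub`
(ST/NumMain.lean) with `x = C - cd (Bm b)`, `exactEB` with `v = 0`, `E.add`.
-/

namespace Pool.Agent.helper25.SXB

open MvPolynomial Pool.Agent.helper5.NBS Pool.Agent.helper89.Segre Pool.Agent.SH9
  Pool.Agent.helper25.ST Pool.Agent.helper25.SX

/-- `2 cd a ≤ (M + 1) S1 a` -/
private lemma two_cd_le {M : ℕ} (a : Multiset ℕ) (h : ∀ μ ∈ a, μ ≤ M) :
    2 * cd a ≤ (M + 1) * S1 a := by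
  induction a using Multiset.induction_on with
  | empty => simp [cd, S1]
  | cons m a ih =>
    have h1 := ih (fun μ hμ => h μ (Multiset.mem_cons_of_mem hμ))
    have h2 := h m (Multiset.mem_cons_self _ _)
    have h3 := two_mul_kk m
    have h4 : m * m ≤ M * m := Nat.mul_le_mul_right m h2
    rw [cd_cons, S1_cons]
    nlinarith

private lemma mass_eq {M : ℕ} (a : Multiset ℕ) (h : ∀ μ ∈ a, μ ≤ M) : mass M a = S1 a := by
  rw [mass, Multiset.filter_eq_self.mpr h]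

theorem exactEB {j d M W A Δ w K0 T0 v N : ℕ} {b : Fin 8 → ℕ} {ms : Multiset ℕ}
    (hms : ∀ μ ∈ ms, μ ≤ M) (hW : 2 ≤ W) (hΔ1 : 1 ≤ Δ) (hWM : 2 * 3 ^ j * (M + 1) + 1 ≤ W)
    (hP : Pos d (10 ^ 8 * W) b) (hN : ∑ i, b i ^ 2 + N = d ^ 2) (h3 : ∑ i, b i ≤ 3 * d)
    (hWd : 10 ^ 10 * (W * d) ≤ N) (hWN : 100 * W ^ 2 ≤ N) (hΔ : 10 ^ 10 * W ^ 4 ≤ Δ * N)
    (hA : 3 * (5 * N) + 3 * (Nat.sqrt (9 * W) + 1) * W ^ 2 ≤ W * A)
    (hw : 3 * A + 3 * Δ + 2 * d + 1 ≤ w) (hwN : 4 * w ≤ N)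
    (hK : (196 * (9 ^ j) ^ 4) ^ 9 ^ j *
      (9 ^ j * (2 * Nat.sqrt (20 * 3 ^ j * M) / (20 * 3 ^ j)) + 1) ≤ K0 ^ 9 ^ j)
    (hT : 3 * K0 * (M + 1) * (Nat.sqrt (20 * 3 ^ j * M) + 1) < T0)
    (hTN : 2 * (M + 1) * (T0 + 16 * 9 ^ j * (2 * w)) ≤ N)
    (hlo : (d + 2).choose 2 ≤ cd (Bm b) + cd ms + v)
    (hhi : cd (Bm b) + cd ms + v ≤ (d + 2).choose 2 + W ^ 2) :
    E d (Bm b + (ms + Multiset.replicate v 1)) := by
  obtain ⟨a, s, z, e1, e2, e3, e4, -, e6, -⟩ := split ms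
  have hMW : M + 2 ≤ W := by
    have h3 : 1 ≤ 3 ^ j := Nat.one_le_pow _ _ (by norm_num)
    have h4 : 2 * 3 ^ j * (M + 1) = 2 * (3 ^ j * (M + 1)) := by ring
    have h5 : M + 1 ≤ 3 ^ j * (M + 1) := Nat.le_mul_of_pos_left _ h3
    omega
  have ha : ∀ μ ∈ a, μ ≤ M := fun μ hμ => hms μ (Multiset.mem_of_le e3 hμ)
  have haW : ∀ μ ∈ a, 2 ≤ μ ∧ μ + 1 ≤ W := fun μ hμ => ⟨e2 μ hμ, by have := ha μ hμ; omega⟩
  have ht := two_choose d
  have h5 : (d + 1) * (d + 2) = d ^ 2 + 3 * d + 2 := by ring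
  rw [h5] at ht
  have hB := two_cd_Bm b
  have hW4 : 4 ≤ W ^ 2 := by nlinarith
  have hdN : 10 ^ 10 * d ≤ N := by
    refine le_trans ?_ hWd
    exact Nat.mul_le_mul_left _ (Nat.le_mul_of_pos_left _ (by omega))
  have hNef : NefTB d b W Δ := by
    refine nefTB_of_lev nefB1 ?_ (by norm_num) (by omega) le_rfl hP hN (by omega) h3 ?_ hΔ (by omega)
    · intro N1 N2 h12 h
      exact h.trans (Nat.mul_le_mul_left _ h12)
    · refine le_trans ?_ hWd
      have : 2 * (10 ^ 8 * W * d) = 2 * 10 ^ 8 * (W * d) := by ring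
      rw [this]
      exact Nat.mul_le_mul_right _ (by norm_num)
  have hbC : cd (Bm b) + 3 + Δ ≤ (d + 2).choose 2 := by omega
  have hΦ : S2 a ≤ 5 * N := by omega
  have hWin : WinB d (Bm b) W (5 * N) w := by
    intro ms' s' g1 g2 g3 g4
    have h := procB (U := W) (by omega) le_rfl hW hΔ1 hNef h3 hbC hA hw ms' s' g1 g2 g3 g4
    have he : Bm b + (ms' + Multiset.replicate s' 1) = ms' + Bm b + Multiset.replicate s' 1 := by
      abel
    rw [he] at h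
    exact h
  have htot : (d + 2).choose 2 ≤ cd (Bm b) + cd a + (s + v) := by omega
  have hPP : P d (a + Bm b) (s + v) := by
    by_cases hws : w ≤ s + v
    · exact hWin a (s + v) haW hΦ htot (Or.inl hws)
    · have hEx : ∀ ms' : Multiset ℕ, (∀ μ ∈ ms', 2 ≤ μ) → T0 ≤ mass M ms' → Avail M j ms' :=
        fun ms' g1 g2 => exist hK hT ms' g1 g2
      refine inductB hWin hWM hEx a (s + v) haW hΦ htot ?_
      rw [mass_eq a ha]
      have h6 := two_cd_le a ha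
      have h7 : T0 + 16 * 9 ^ j * (2 * w) ≤ S1 a := by
        have h8 : 2 * (M + 1) * (T0 + 16 * 9 ^ j * (2 * w)) ≤ 2 * (M + 1) * S1 a := by
          refine hTN.trans ?_
          have h9 : 2 * (M + 1) * S1 a = 2 * ((M + 1) * S1 a) := by ring
          rw [h9]
          omega
        exact Nat.le_of_mul_le_mul_left h8 (by omega)
      refine le_trans ?_ h7
      refine Nat.add_le_add_left (Nat.mul_le_mul_left _ ?_) _
      omega
  have hQ := E.add hPP (Multiset.replicate z 0)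
  have he : Bm b + (ms + Multiset.replicate v 1) =
      a + Bm b + Multiset.replicate (s + v) 1 + Multiset.replicate z 0 := by
    rw [e1, Multiset.replicate_add]
    abel
  rw [he]
  exact hQ

end Pool.Agent.helper25.SXB
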