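import Mathlib

set_option autoImplicit false

/-!
# Module NumX: the numbers (compare SX/NumX.lean, there `N = d²`)

`n = 9 ^ j`, `κ = 20 * 3 ^ j`, `L = M + 1`, `c = 16 * 9 ^ j`. Hypotheses `C L ≤ Y`, `C L ^ (5n+1) ≤ N ^ (2n)`,
`d Y ≤ 4 N`, `Y ≤ d`; `C` large depending on `j`.
* `W = Λ L` with `Λ = 10 ^ 4 * c`. `10 ^ 8 W ≤ Y` and `10 ^ 10 W d ≤ C L d / 4 ≤ d Y / 4 ≤ N` directly;
  `N ^ 2 ≥ C' L ^ 5` with `C' ^ n ≤ C`, in particular `N ≥ C'' L ^ 2 √L`, `100 W ^ 2 ≤ N`.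
* `K0`, `T0` as in SX/NumX.lean: `T0 = 3 K0 L (√(κ M) + 1) + 1`, `K0 ^ (2n) ≤ C1 L`,
  `(T0 L) ^ (2n) ≤ C2 L ^ (5n+1)`, so `100 T0 L ≤ N` (compare `2n`-th powers).
* `A = (15 N + 3 (√(9W) + 1) W ^ 2) / W + 1`, `Δ = 10 ^ 10 W ^ 4 / N + 1`, `w = 3 A + 3 Δ + 2 d + 1`:
  `4 c w L ≤ N / 5`: `12 c A L ≤ 180 c L N / W + 144 c L W ^ (3/2) + ..`, `180 c L / W ≤ 1 / 50`,
  `L W ^ (3/2) = Λ ^ (3/2) L ^ (5/2)`; `12 c Δ L ≤ 12 c 10 ^ 10 Λ ^ 4 L ^ 5 / N + ..`, `L ^ 5 ≤ N ^ 2 / const`;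
  `4 c (2 d + 1) L ≤ 12 c d L ≤ 12 c d Y / C ≤ 48 c N / C` (`d ≥ Y ≥ 1`).
-/

namespace Pool.Agent.helper25.SXB

private lemma numX_root (n X : ℕ) (hn : 1 ≤ n) (hX : 1 ≤ X) :
    ∃ R : ℕ, 1 ≤ R ∧ X ≤ R ^ n ∧ R ^ n ≤ 2 ^ n * X := by
  classical
  have hex : ∃ R : ℕ, X ≤ R ^ n := ⟨X, Nat.le_self_pow (by omega) X⟩
  obtain ⟨R, hR, hmin⟩ : ∃ R : ℕ, X ≤ R ^ n ∧ ∀ r < R, ¬ X ≤ r ^ n :=
    ⟨Nat.find hex, Nat.find_spec hex, fun r hr => Nat.find_min hex hr⟩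
  have hR1 : 1 ≤ R := by
    rcases Nat.eq_zero_or_pos R with h | h
    · rw [h, zero_pow (by omega)] at hR
      omega
    · exact h
  refine ⟨R, hR1, hR, ?_⟩
  rcases Nat.lt_or_ge R 2 with h | h
  · have : R = 1 := by omega
    rw [this, one_pow]
    exact Nat.one_le_iff_ne_zero.mpr (by positivity)
  · have h1 := hmin (R - 1) (by omega)
    have h2 : (R - 1) ^ n ≤ X := by omega
    calc R ^ n ≤ (2 * (R - 1)) ^ n := Nat.pow_le_pow_left (by omega) n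
      _ = 2 ^ n * (R - 1) ^ n := mul_pow _ _ _
      _ ≤ 2 ^ n * X := Nat.mul_le_mul_left _ h2

/-- the part of the bound which concerns `T0` -/
private lemma numX_T (n κ N M D s L K0 R : ℕ) (hn : 1 ≤ n) (hN : 1 ≤ N) (hM : M ≤ N) (hκ : 1 ≤ κ)
    (hs : s * s ≤ κ * M) (hL : L ≤ s) (hK0 : K0 = 196 * n ^ 4 * R) (hR1 : 1 ≤ R)
    (hR : R ^ n ≤ 2 ^ n * (n * L + 1))
    (hd : (8 ^ (2 * n) * (196 * n ^ 4) ^ (2 * n) * 4 ^ n * n ^ 2 * (4 * κ) * (4 * κ) ^ n * 4 ^ n) *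
      N ^ (5 * n + 1) ≤ D ^ (2 * n)) :
    4 * N * (3 * K0 * N * (s + 1) + 1) ≤ D := by
  have hs2 : (s + 1) ^ 2 ≤ 4 * κ * N := by
    have h1 : s * s ≤ κ * N := hs.trans (Nat.mul_le_mul_left _ hM)
    have h2 : 1 ≤ κ * N := Nat.one_le_iff_ne_zero.mpr (by positivity)
    nlinarith [sq_nonneg ((s : ℤ) - 1)]
  have hK1 : 1 ≤ K0 := by
    rw [hK0]
    exact Nat.one_le_iff_ne_zero.mpr (by positivity)
  have h1 : 4 * N * (3 * K0 * N * (s + 1) + 1) ≤ 2 * (8 * (K0 * N ^ 2 * (s + 1))) := by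
    have h2 : 1 ≤ K0 * N * (s + 1) := Nat.one_le_iff_ne_zero.mpr (by positivity)
    calc 4 * N * (3 * K0 * N * (s + 1) + 1)
        ≤ 4 * N * (3 * K0 * N * (s + 1) + K0 * N * (s + 1)) := by gcongr
      _ = 2 * (8 * (K0 * N ^ 2 * (s + 1))) := by ring
  refine h1.trans ?_
  have h2n : 2 * n ≠ 0 := by omega
  rw [← Nat.pow_le_pow_iff_left h2n]
  have hKn : K0 ^ n ≤ (196 * n ^ 4) ^ n * (2 ^ n * (n * (s + 1))) := by
    rw [hK0, mul_pow]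
    apply Nat.mul_le_mul_left
    refine hR.trans (Nat.mul_le_mul_left _ ?_)
    nlinarith [Nat.mul_le_mul_left n hL]
  have hK2n : K0 ^ (2 * n) ≤ (196 * n ^ 4) ^ (2 * n) * (4 ^ n * (n ^ 2 * (4 * κ * N))) := by
    calc K0 ^ (2 * n) = (K0 ^ n) ^ 2 := by rw [← pow_mul, mul_comm]
      _ ≤ ((196 * n ^ 4) ^ n * (2 ^ n * (n * (s + 1)))) ^ 2 := Nat.pow_le_pow_left hKn 2
      _ = (196 * n ^ 4) ^ (2 * n) * (4 ^ n * (n ^ 2 * (s + 1) ^ 2)) := by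
          have e1 : (4 : ℕ) ^ n = (2 ^ n) ^ 2 := by
            rw [← pow_mul, mul_comm n 2, pow_mul]
            norm_num
          have e2 : (196 * n ^ 4) ^ (2 * n) = ((196 * n ^ 4) ^ n) ^ 2 := by
            rw [← pow_mul, mul_comm n 2]
          rw [e1, e2]
          ring
      _ ≤ _ := by gcongr
  have hsn : (s + 1) ^ (2 * n) ≤ (4 * κ) ^ n * N ^ n := by
    rw [pow_mul, ← mul_pow]
    exact Nat.pow_le_pow_left hs2 n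
  calc (2 * (8 * (K0 * N ^ 2 * (s + 1)))) ^ (2 * n)
      = 2 ^ (2 * n) * (8 ^ (2 * n) * (K0 ^ (2 * n) * (N ^ 2) ^ (2 * n) * (s + 1) ^ (2 * n))) := by
        rw [mul_pow, mul_pow, mul_pow, mul_pow]
    _ ≤ 2 ^ (2 * n) * (8 ^ (2 * n) * (((196 * n ^ 4) ^ (2 * n) * (4 ^ n * (n ^ 2 * (4 * κ * N)))) *
          (N ^ 2) ^ (2 * n) * ((4 * κ) ^ n * N ^ n))) := by gcongr
    _ = (8 ^ (2 * n) * (196 * n ^ 4) ^ (2 * n) * 4 ^ n * n ^ 2 * (4 * κ) * (4 * κ) ^ n * 4 ^ n) *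
          N ^ (5 * n + 1) := by
        have e1 : (2 : ℕ) ^ (2 * n) = 4 ^ n := by rw [pow_mul]; norm_num
        have e2 : N ^ (5 * n + 1) = (N ^ 2) ^ (2 * n) * N ^ n * N := by
          rw [← pow_mul, ← pow_add, ← pow_succ]
          congr 1
          ring
        rw [e1, e2]
        ring
    _ ≤ D ^ (2 * n) := hd

/-- the part of the bound which concerns `w` -/
private lemma numX_w (n N d D W A Δ w r : ℕ) (hn : 1 ≤ n) (hN : 1 ≤ N) (hW : W = 10 ^ 6 * n * N)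
    (hd : 10 ^ 80 * n ^ 8 * N ^ 5 ≤ D ^ 2) (hd1 : 10 ^ 20 * (n * N) ≤ d)
    (hdD : 10 ^ 20 * (n * N) * d ≤ 4 * D)
    (hr : r * r ≤ 9 * W)
    (hA : W * A ≤ 15 * D + 3 * (r + 1) * W ^ 2 + W)
    (hΔ : Δ * D ≤ 10 ^ 10 * W ^ 4 + D) (hw : w = 3 * A + 3 * Δ + 2 * d + 1) :
    128 * n * N * w ≤ D := by
  have hnN : 1 ≤ n * N := Nat.one_le_iff_ne_zero.mpr (by positivity)
  have hd0 : 1 ≤ d := le_trans (by nlinarith) hd1
  have hWD : W ≤ D := by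
    have h1 : W = 10 ^ 6 * (n * N) := by rw [hW]; ring
    have h2 : n * N ≤ n * N * d := Nat.le_mul_of_pos_right _ hd0
    have h3 : 10 ^ 20 * (n * N * d) ≤ 4 * D := by
      calc 10 ^ 20 * (n * N * d) = 10 ^ 20 * (n * N) * d := by ring
        _ ≤ 4 * D := hdD
    omega
  have hW1 : 1 ≤ W := by rw [hW]; nlinarith
  have hD1 : 1 ≤ D := hW1.trans hWD
  -- `(r + 1) * W ^ 2 ≤ D`
  have hr2 : (r + 1) ^ 2 ≤ 36 * W := by nlinarith [sq_nonneg ((r : ℤ) - 1)]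
  have hrW : (r + 1) * W ^ 2 ≤ D := by
    rw [← Nat.pow_le_pow_iff_left (two_ne_zero)]
    calc ((r + 1) * W ^ 2) ^ 2 = (r + 1) ^ 2 * W ^ 4 := by ring
      _ ≤ 36 * W * W ^ 4 := by gcongr
      _ = 36 * 10 ^ 30 * n ^ 5 * N ^ 5 := by rw [hW]; ring
      _ ≤ 10 ^ 80 * n ^ 8 * N ^ 5 :=
          Nat.mul_le_mul_right _ (Nat.mul_le_mul (by norm_num)
            (Nat.pow_le_pow_right hn (by norm_num)))
      _ ≤ D ^ 2 := hd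
  -- the `A` part
  have hA2 : 10 ^ 6 * (n * (N * A)) ≤ 15 * D + 3 * D + D := by
    have h1 : W * A = 10 ^ 6 * (n * (N * A)) := by rw [hW]; ring
    have h2 : 3 * (r + 1) * W ^ 2 ≤ 3 * D := by nlinarith
    omega
  -- the `Δ` part
  have hΔ2 : 10 ^ 6 * (n * N * Δ) ≤ D + 10 ^ 6 * (n * N) := by
    have h1 : 10 ^ 6 * (n * N * Δ) * D ≤ (D + 10 ^ 6 * (n * N)) * D := by
      calc 10 ^ 6 * (n * N * Δ) * D = 10 ^ 6 * (n * N) * (Δ * D) := by ring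
        _ ≤ 10 ^ 6 * (n * N) * (10 ^ 10 * W ^ 4 + D) := by gcongr
        _ = 10 ^ 40 * n ^ 5 * N ^ 5 + 10 ^ 6 * (n * N) * D := by rw [hW]; ring
        _ ≤ D ^ 2 + 10 ^ 6 * (n * N) * D := by
            apply Nat.add_le_add_right
            refine le_trans ?_ hd
            exact Nat.mul_le_mul_right _ (Nat.mul_le_mul (by norm_num)
              (Nat.pow_le_pow_right hn (by norm_num)))
        _ = (D + 10 ^ 6 * (n * N)) * D := by ring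
    exact Nat.le_of_mul_le_mul_right h1 hD1
  have hdN3 : 10 ^ 20 * (n * N * d) ≤ 4 * D := by
    calc 10 ^ 20 * (n * N * d) = 10 ^ 20 * (n * N) * d := by ring
      _ ≤ 4 * D := hdD
  have h5 : n * N ≤ n * N * d := Nat.le_mul_of_pos_right _ hd0
  have hww : 128 * n * N * w = 384 * (n * (N * A)) + 384 * (n * N * Δ) + 256 * (n * N * d) +
      128 * (n * N) := by rw [hw]; ring
  rw [hww]
  generalize n * (N * A) = x1 at *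
  generalize n * N * Δ = x2 at *
  generalize n * N * d = x3 at *
  generalize n * N = x5 at *
  omega

theorem numXB (j : ℕ) : ∃ C : ℕ, ∀ d M Y N : ℕ,
    C * (M + 1) ≤ Y → C * (M + 1) ^ (5 * 9 ^ j + 1) ≤ N ^ (2 * 9 ^ j) → d * Y ≤ 4 * N → Y ≤ d →
    ∃ W A Δ w K0 T0 : ℕ, 2 ≤ W ∧ 1 ≤ Δ ∧ 2 * 3 ^ j * (M + 1) + 1 ≤ W ∧ 10 ^ 8 * W ≤ Y ∧
      10 ^ 10 * (W * d) ≤ N ∧ 100 * W ^ 2 ≤ N ∧ 10 ^ 10 * W ^ 4 ≤ Δ * N ∧
      3 * (5 * N) + 3 * (Nat.sqrt (9 * W) + 1) * W ^ 2 ≤ W * A ∧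
      3 * A + 3 * Δ + 2 * d + 1 ≤ w ∧ 4 * w ≤ N ∧
      (196 * (9 ^ j) ^ 4) ^ 9 ^ j *
        (9 ^ j * (2 * Nat.sqrt (20 * 3 ^ j * M) / (20 * 3 ^ j)) + 1) ≤ K0 ^ 9 ^ j ∧
      3 * K0 * (M + 1) * (Nat.sqrt (20 * 3 ^ j * M) + 1) < T0 ∧
      2 * (M + 1) * (T0 + 16 * 9 ^ j * (2 * w)) ≤ N := by
  have ha1 : 1 ≤ 3 ^ j := Nat.one_le_pow _ _ (by norm_num)
  have han : 3 ^ j ≤ 9 ^ j := Nat.pow_le_pow_left (by norm_num) j
  generalize hna : (9 : ℕ) ^ j = n at *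
  generalize hnb : (3 : ℕ) ^ j = a at *
  have hn : 1 ≤ n := ha1.trans han
  set C2 : ℕ := 8 ^ (2 * n) * (196 * n ^ 4) ^ (2 * n) * 4 ^ n * n ^ 2 * (4 * (20 * a)) *
    (4 * (20 * a)) ^ n * 4 ^ n with hC2
  have hC2pos : 1 ≤ C2 := Nat.one_le_iff_ne_zero.mpr (by positivity)
  refine ⟨(10 ^ 80 * n ^ 8) ^ n * C2, fun d M Y D hypY hypD hdY hYd => ?_⟩
  have hC1pos : 1 ≤ (10 ^ 80 * n ^ 8) ^ n := Nat.one_le_iff_ne_zero.mpr (by positivity)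
  set N := M + 1 with hNdef
  have hN : 1 ≤ N := by omega
  have hypA : C2 * N ^ (5 * n + 1) ≤ D ^ (2 * n) := by
    refine le_trans (Nat.mul_le_mul_right _ ?_) hypD
    exact Nat.le_mul_of_pos_left _ hC1pos
  have hd4 : 10 ^ 80 * n ^ 8 * N ^ 5 ≤ D ^ 2 := by
    rw [← Nat.pow_le_pow_iff_left (show n ≠ 0 by omega)]
    calc (10 ^ 80 * n ^ 8 * N ^ 5) ^ n = (10 ^ 80 * n ^ 8) ^ n * N ^ (5 * n) := by
          rw [mul_pow, ← pow_mul N]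
      _ ≤ (10 ^ 80 * n ^ 8) ^ n * C2 * N ^ (5 * n + 1) := by
          refine Nat.mul_le_mul (Nat.le_mul_of_pos_right _ hC2pos) ?_
          exact Nat.pow_le_pow_right hN (by omega)
      _ ≤ D ^ (2 * n) := hypD
      _ = (D ^ 2) ^ n := by rw [pow_mul]
  have hY1 : 10 ^ 20 * (n * N) ≤ Y := by
    refine le_trans ?_ hypY
    have h1 : n ≤ n ^ 8 := Nat.le_self_pow (by norm_num) n
    have h2 : 10 ^ 20 * n ≤ (10 ^ 80 * n ^ 8) ^ n := by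
      calc 10 ^ 20 * n ≤ 10 ^ 80 * n ^ 8 := Nat.mul_le_mul (by norm_num) h1
        _ ≤ (10 ^ 80 * n ^ 8) ^ n := Nat.le_self_pow (by omega) _
    calc 10 ^ 20 * (n * N) = 10 ^ 20 * n * N := by ring
      _ ≤ (10 ^ 80 * n ^ 8) ^ n * C2 * N :=
          Nat.mul_le_mul_right _ (h2.trans (Nat.le_mul_of_pos_right _ hC2pos))
  have hd1 : 10 ^ 20 * (n * N) ≤ d := hY1.trans hYd
  have hdD : 10 ^ 20 * (n * N) * d ≤ 4 * D := by
    refine le_trans ?_ hdY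
    rw [mul_comm d Y]
    exact Nat.mul_le_mul_right _ hY1
  obtain ⟨s, hs⟩ : ∃ s, s = Nat.sqrt (20 * a * M) := ⟨_, rfl⟩
  rw [← hs]
  have hss : s * s ≤ 20 * a * M := by rw [hs]; exact Nat.sqrt_le _
  obtain ⟨L, hLdef⟩ : ∃ L, L = 2 * s / (20 * a) := ⟨_, rfl⟩
  rw [← hLdef]
  have hL : L ≤ s := by
    rw [hLdef]
    apply Nat.div_le_of_le_mul
    nlinarith
  obtain ⟨R, hR1, hRlo, hRhi⟩ := numX_root n (n * L + 1) hn (by omega)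
  have hT := numX_T n (20 * a) N M D s L (196 * n ^ 4 * R) R hn hN (by omega) (by omega) hss hL rfl
    hR1 hRhi hypA
  -- `W`
  obtain ⟨W, hW⟩ : ∃ W, W = 10 ^ 6 * n * N := ⟨_, rfl⟩
  have hnN : 1 ≤ n * N := Nat.one_le_iff_ne_zero.mpr (by positivity)
  have hW' : W = 10 ^ 6 * (n * N) := by rw [hW]; ring
  have hW1 : 1 ≤ W := by omega
  have hd0 : 1 ≤ d := by omega
  have hWd : 10 ^ 10 * (W * d) ≤ D := by
    have h3 : 10 ^ 20 * (n * N * d) ≤ 4 * D := by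
      calc 10 ^ 20 * (n * N * d) = 10 ^ 20 * (n * N) * d := by ring
        _ ≤ 4 * D := hdD
    have h4 : 10 ^ 10 * (W * d) = 10 ^ 16 * (n * N * d) := by rw [hW]; ring
    rw [h4]
    omega
  have hWdle : W ≤ d := by omega
  have hWY : 10 ^ 8 * W ≤ Y := by omega
  have hW2 : 2 ≤ W := by omega
  have hdpos : 0 < D := by
    have h1 : 1 ≤ W * d := Nat.one_le_iff_ne_zero.mpr (by positivity)
    omega
  obtain ⟨r, hr⟩ : ∃ r, r = Nat.sqrt (9 * W) := ⟨_, rfl⟩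
  have hrr : r * r ≤ 9 * W := by rw [hr]; exact Nat.sqrt_le _
  obtain ⟨A, hA⟩ : ∃ A, A = (15 * D + 3 * (r + 1) * W ^ 2) / W + 1 := ⟨_, rfl⟩
  have hA1 : 15 * D + 3 * (r + 1) * W ^ 2 ≤ W * A := by
    rw [hA]
    generalize 15 * D + 3 * (r + 1) * W ^ 2 = X
    have h1 := Nat.div_add_mod X W
    have h2 := Nat.mod_lt X (show W > 0 from hW1)
    rw [mul_add, mul_one]
    omega
  have hA2 : W * A ≤ 15 * D + 3 * (r + 1) * W ^ 2 + W := by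
    rw [hA]
    generalize 15 * D + 3 * (r + 1) * W ^ 2 = X
    have h1 := Nat.div_add_mod X W
    rw [mul_add, mul_one]
    omega
  obtain ⟨Δ, hΔ⟩ : ∃ Δ, Δ = 10 ^ 10 * W ^ 4 / D + 1 := ⟨_, rfl⟩
  have hΔ1 : 10 ^ 10 * W ^ 4 ≤ Δ * D := by
    have h1 := Nat.div_add_mod (10 ^ 10 * W ^ 4) D
    have h2 := Nat.mod_lt (10 ^ 10 * W ^ 4) (show D > 0 from hdpos)
    rw [hΔ, add_mul, one_mul, mul_comm (10 ^ 10 * W ^ 4 / D) D]
    omega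
  have hΔ2 : Δ * D ≤ 10 ^ 10 * W ^ 4 + D := by
    have h1 := Nat.div_add_mod (10 ^ 10 * W ^ 4) D
    rw [hΔ, add_mul, one_mul, mul_comm (10 ^ 10 * W ^ 4 / D) D]
    omega
  obtain ⟨w, hw⟩ : ∃ w, w = 3 * A + 3 * Δ + 2 * d + 1 := ⟨_, rfl⟩
  have hw2 := numX_w n N d D W A Δ w r hn hN hW hd4 hd1 hdD hrr hA2 hΔ2 hw
  refine ⟨W, A, Δ, w, 196 * n ^ 4 * R, 3 * (196 * n ^ 4 * R) * N * (s + 1) + 1, hW2,
    by rw [hΔ]; exact Nat.le_add_left _ _, ?_, hWY, hWd, ?_, hΔ1, ?_, ?_, ?_, ?_, ?_, ?_⟩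
  · have h1 : a * N ≤ n * N := Nat.mul_le_mul_right _ han
    have h2 : 2 * a * N = 2 * (a * N) := by ring
    omega
  · have h1 : W ^ 2 ≤ W * d := by
      rw [pow_two]
      exact Nat.mul_le_mul_left _ hWdle
    omega
  · rw [← hr]
    calc 3 * (5 * D) + 3 * (r + 1) * W ^ 2 = 15 * D + 3 * (r + 1) * W ^ 2 := by ring
      _ ≤ W * A := hA1
  · rw [hw]
  · refine le_trans ?_ hw2
    have h1 : 1 * w ≤ n * N * w := Nat.mul_le_mul_right _ hnN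
    calc 4 * w ≤ 128 * (1 * w) := by omega
      _ ≤ 128 * (n * N * w) := by gcongr
      _ = 128 * n * N * w := by ring
  · rw [mul_pow (196 * n ^ 4) R n]
    exact Nat.mul_le_mul_left _ hRlo
  · omega
  · have h1 : 2 * N * (3 * (196 * n ^ 4 * R) * N * (s + 1) + 1 + 16 * n * (2 * w)) * 2 =
        4 * N * (3 * (196 * n ^ 4 * R) * N * (s + 1) + 1) + 128 * n * N * w := by ring
    omega

end Pool.Agent.helper25.SXB
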