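import Pool.Agent.helper25.SXB.Three

set_option autoImplicit false

/-!
# Module Std: standard systems

`std_pos`: `Pos D X b` for standard systems: with the countable set of `pos_three` (and `mult ≤ deg`,
`Nef0aux.mult_le_deg`), the first part is `nine_lin` (KB/N4.lean) for the nine weights
`Fin.append b (fun _ => X)`. Second part: `γ i ≤ E`, `16 ∑ γ ≤ 47 E` (second part of
`pos_three`). Let `a, c, e` be the indices of the three largest weights `b a ≥ b c ≥ b e` (as in `nine_lin`).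
`∑ b γ ≤ b a γ a + b c γ c + b e (∑ γ - γ a - γ c)`, `D ≥ b a + b c + max (b e) X`, so
`D E - ∑ b γ ≥ (b a - b e) (E - γ a) + (b c - b e) (E - γ c) + b e (3 E - ∑ γ) + (max (b e) X - b e) E`,
and `3 E - ∑ γ ≥ E / 16`.
`std_N`: for standard systems `D Y ≤ 4 N`, `N = D² - ∑ b²`: with the three largest weights
`x ≥ y ≥ z`, `t = D - x - y ≥ max z Y`: `∑ b² ≤ x² + y² + 6 z²`,
`D² - x² - y² = 2 x y + 2 t (x + y) + t²`, `6 z² ≤ 2 x y + 4 z t`. If `4 t ≤ D`:
`4 (x + y) ≥ 3 D`, `4 z t ≤ 4 t² ≤ t D`, so `N ≥ 2 t (x + y) + t² - t D ≥ t D / 2`. If `4 t ≥ D`: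
`4 z t ≤ 2 t (x + y)`, `N ≥ t² ≥ t D / 4`.
`std_three`: `∑ b ≤ 3 D`: `∑ b ≤ x + y + 6 z ≤ (8/3) (x + y + z)`.
-/

namespace Pool.Agent.helper25.SXB

open MvPolynomial Pool.Agent.helper5.NBS Pool.Agent.helper89.Segre Pool.Agent.SH9
  Pool.Agent.helper25.ST

private lemma top_three (b : Fin 8 → ℕ) : ∃ a c e : Fin 8, a ≠ c ∧ c ≠ e ∧ a ≠ e ∧
    b c ≤ b a ∧ b e ≤ b c ∧ (∀ i ∈ (Finset.univ.erase a).erase c, b i ≤ b e) ∧
    ((Finset.univ.erase a).erase c).card = 6 ∧
    ∀ f : Fin 8 → ℕ, ∑ i, f i = f a + (f c + ∑ i ∈ (Finset.univ.erase a).erase c, f i) := by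
  classical
  obtain ⟨a, -, ha⟩ := Finset.exists_max_image Finset.univ b Finset.univ_nonempty
  obtain ⟨c, hc, hcm⟩ := Finset.exists_max_image (Finset.univ.erase a) b (by
    rw [← Finset.card_pos, Finset.card_erase_of_mem (Finset.mem_univ a)]; simp)
  have hcard : (((Finset.univ : Finset (Fin 8)).erase a).erase c).card = 6 := by
    rw [Finset.card_erase_of_mem hc, Finset.card_erase_of_mem (Finset.mem_univ a)]; simp
  obtain ⟨e, he, hem⟩ := Finset.exists_max_image ((Finset.univ.erase a).erase c) b (by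
    rw [← Finset.card_pos, hcard]; norm_num)
  have hca : c ≠ a := (Finset.mem_erase.mp hc).1
  have hec : e ≠ c := (Finset.mem_erase.mp he).1
  have he' : e ∈ Finset.univ.erase a := (Finset.mem_erase.mp he).2
  have hea : e ≠ a := (Finset.mem_erase.mp he').1
  refine ⟨a, c, e, hca.symm, hec.symm, hea.symm, ha c (Finset.mem_univ c), hcm e he', hem,
    hcard, fun f => ?_⟩
  rw [Finset.add_sum_erase _ _ hc, Finset.add_sum_erase _ _ (Finset.mem_univ a)]

private lemma second {D X E : ℕ} {b γ : Fin 8 → ℕ}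
    (h3 : ∀ i j k, i ≠ j → j ≠ k → i ≠ k → b i + b j + b k ≤ D)
    (h2 : ∀ i j, i ≠ j → b i + b j + X ≤ D) (hle : ∀ i, γ i ≤ E)
    (hs : 16 * ∑ i, γ i ≤ 47 * E) : 16 * ∑ i, b i * γ i + X * E ≤ 16 * (D * E) := by
  classical
  obtain ⟨a, c, e, hac, hce, hae, hba, hbc, hmax, -, hsum⟩ := top_three b
  have hrest : ∑ i ∈ (Finset.univ.erase a).erase c, b i * γ i ≤
      b e * ∑ i ∈ (Finset.univ.erase a).erase c, γ i := by
    rw [Finset.mul_sum]
    exact Finset.sum_le_sum fun i hi => Nat.mul_le_mul_right _ (hmax i hi)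
  rw [hsum γ] at hs
  rw [hsum (fun i => b i * γ i)]
  have htri := h3 a c e hac hce hae
  have htwo := h2 a c hac
  have ha := hle a
  have hc := hle c
  generalize ∑ i ∈ (Finset.univ.erase a).erase c, γ i = R at hs hrest
  generalize ∑ i ∈ (Finset.univ.erase a).erase c, b i * γ i = S at hrest ⊢
  obtain ⟨A, hA⟩ : ∃ A, b a = b e + A := ⟨b a - b e, by omega⟩
  obtain ⟨B, hB⟩ : ∃ B, b c = b e + B := ⟨b c - b e, by omega⟩
  obtain ⟨M, hMD, hMe, hMX⟩ : ∃ M, b a + b c + M ≤ D ∧ b e ≤ M ∧ X ≤ M :=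
    ⟨max (b e) X, by rcases max_cases (b e) X with h | h <;> omega, le_max_left _ _,
      le_max_right _ _⟩
  have h1 : A * γ a ≤ A * E := Nat.mul_le_mul_left _ ha
  have h4 : B * γ c ≤ B * E := Nat.mul_le_mul_left _ hc
  have h5 : b e * (16 * (γ a + (γ c + R))) ≤ b e * (47 * E) := Nat.mul_le_mul_left _ hs
  have h6 : (b a + b c + M) * E ≤ D * E := Nat.mul_le_mul_right _ hMD
  have h7 : b e * E ≤ M * E := Nat.mul_le_mul_right _ hMe
  have h8 : X * E ≤ M * E := Nat.mul_le_mul_right _ hMX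
  rw [hA, hB] at h6 ⊢
  nlinarith [h1, h4, h5, h6, h7, h8, hrest]

theorem std_pos {D X : ℕ} {b : Fin 8 → ℕ}
    (h3 : ∀ i j k, i ≠ j → j ≠ k → i ≠ k → b i + b j + b k ≤ D)
    (h2 : ∀ i j, i ≠ j → b i + b j + X ≤ D) : Pos D X b := by
  obtain ⟨T, hTc, hTn, hT⟩ := pos_three
  refine ⟨T, hTc, hTn, fun q hq F hF => ?_⟩
  obtain ⟨g1, g2⟩ := hT q hq F hF
  simp only [one_mul] at g1 g2
  have hle : ∀ i, mult (q i) F ≤ wdeg 1 F := fun i =>
    Pool.Agent.helper25.ST.Nef0aux.mult_le_deg (q i) hF.ne_zero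
  constructor
  · have hsum : ∑ i : Fin (8 + 1), mult (q i) F ≤ 3 * wdeg 1 F := by
      rw [Fin.sum_univ_add]
      simpa using g1
    have h := Pool.Agent.KB.nine_lin (D0 := D) (D := wdeg 1 F)
      (Fin.append b (fun _ : Fin 1 => X)) (fun i : Fin (8 + 1) => mult (q i) F) ?_ hle hsum
    · have h' : ∑ i : Fin (8 + 1), Fin.append b (fun _ : Fin 1 => X) i * mult (q i) F
          ≤ D * wdeg 1 F := h
      rw [Fin.sum_univ_add] at h'
      simpa using h'
    · intro i j k
      refine Fin.addCases (m := 8) (n := 1) (fun i => ?_) (fun i => ?_) i <;>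
      refine Fin.addCases (m := 8) (n := 1) (fun j => ?_) (fun j => ?_) j <;>
      refine Fin.addCases (m := 8) (n := 1) (fun k => ?_) (fun k => ?_) k <;>
      intro hij hjk hik <;>
      simp only [Fin.append_left, Fin.append_right]
      · exact h3 i j k (fun h => hij (by rw [h])) (fun h => hjk (by rw [h]))
          (fun h => hik (by rw [h]))
      · exact h2 i j (fun h => hij (by rw [h]))
      · have := h2 i k (fun h => hik (by rw [h]))
        omega
      · exact absurd (by rw [Subsingleton.elim j k]) hjk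
      · have := h2 j k (fun h => hjk (by rw [h]))
        omega
      · exact absurd (by rw [Subsingleton.elim i k]) hik
      · exact absurd (by rw [Subsingleton.elim i j]) hij
      · exact absurd (by rw [Subsingleton.elim i j]) hij
  · exact second h3 h2 (fun i => hle _) (by omega)

theorem std_N {D Y N : ℕ} {b : Fin 8 → ℕ}
    (h3 : ∀ i j k, i ≠ j → j ≠ k → i ≠ k → b i + b j + b k ≤ D)
    (h2 : ∀ i j, i ≠ j → b i + b j + Y ≤ D) (hN : ∑ i, b i ^ 2 + N = D ^ 2) :
    D * Y ≤ 4 * N := by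
  classical
  obtain ⟨a, c, e, hac, hce, hae, hba, hbc, hmax, hcard, hsum⟩ := top_three b
  have hrest : ∑ i ∈ (Finset.univ.erase a).erase c, b i ^ 2 ≤ 6 * b e ^ 2 := by
    have h := Finset.sum_le_card_nsmul ((Finset.univ.erase a).erase c) (fun i => b i ^ 2)
      (b e ^ 2) (fun i hi => Nat.pow_le_pow_left (hmax i hi) 2)
    rw [hcard, smul_eq_mul] at h
    exact h
  rw [hsum (fun i => b i ^ 2)] at hN
  have htri := h3 a c e hac hce hae
  have htwo := h2 a c hac
  generalize ∑ i ∈ (Finset.univ.erase a).erase c, b i ^ 2 = S at hrest hN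
  generalize b a = x at *
  generalize b c = y at *
  generalize b e = z at *
  obtain ⟨t, rfl⟩ : ∃ t, D = x + y + t := ⟨D - x - y, by omega⟩
  have hzt : z ≤ t := by omega
  have hYt : Y ≤ t := by omega
  have e1 : (x + y + t) * Y ≤ (x + y + t) * t := Nat.mul_le_mul_left _ hYt
  have e2 : z * z ≤ x * y := Nat.mul_le_mul (by omega) (by omega)
  have e3 : z * z ≤ z * t := Nat.mul_le_mul_left _ hzt
  rcases Nat.le_total (4 * t) (x + y + t) with h | h
  · have e4 : z * t ≤ t * t := Nat.mul_le_mul_right _ hzt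
    have e5 : t * (4 * t) ≤ t * (x + y + t) := Nat.mul_le_mul_left _ h
    nlinarith
  · have e6 : t * (x + y + t) ≤ t * (4 * t) := Nat.mul_le_mul_left _ h
    have e7 : z * t ≤ x * t := Nat.mul_le_mul_right _ (by omega)
    have e8 : z * t ≤ y * t := Nat.mul_le_mul_right _ (by omega)
    nlinarith

theorem std_three {D : ℕ} {b : Fin 8 → ℕ}
    (h3 : ∀ i j k, i ≠ j → j ≠ k → i ≠ k → b i + b j + b k ≤ D) :
    ∑ i, b i ≤ 3 * D ∧ ∑ i, b i ^ 2 ≤ D ^ 2 := by
  classical
  obtain ⟨a, c, e, hac, hce, hae, hba, hbc, hmax, hcard, hsum⟩ := top_three b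
  have hrest : ∑ i ∈ (Finset.univ.erase a).erase c, b i ^ 2 ≤ 6 * b e ^ 2 := by
    have h := Finset.sum_le_card_nsmul ((Finset.univ.erase a).erase c) (fun i => b i ^ 2)
      (b e ^ 2) (fun i hi => Nat.pow_le_pow_left (hmax i hi) 2)
    rw [hcard, smul_eq_mul] at h
    exact h
  have hrest1 : ∑ i ∈ (Finset.univ.erase a).erase c, b i ≤ 6 * b e := by
    have h := Finset.sum_le_card_nsmul ((Finset.univ.erase a).erase c) (fun i => b i)
      (b e) (fun i hi => hmax i hi)
    rw [hcard, smul_eq_mul] at h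
    exact h
  have htri := h3 a c e hac hce hae
  rw [hsum (fun i => b i ^ 2), hsum b]
  constructor
  · omega
  · have h1 : (b a + b c + b e) ^ 2 ≤ D ^ 2 := Nat.pow_le_pow_left htri 2
    have h2 : b e * b e ≤ b a * b c := Nat.mul_le_mul (by omega) (by omega)
    have h4 : b e * b e ≤ b a * b e := Nat.mul_le_mul_right _ (by omega)
    have h5 : b e * b e ≤ b c * b e := Nat.mul_le_mul_right _ (by omega)
    nlinarith

end Pool.Agent.helper25.SXB
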