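import Pool.Agent.helper25.SXB.FinE
import Pool.Agent.helper25.SXB.NumX
import Pool.Agent.helper25.SXB.Std

set_option autoImplicit false

/-!
# Module FinM: assembly (`exactMB`; compare SX/FinM.lean)

`exactMB`: `std_three`, `std_N` (`d Y ≤ 4 N`), `std_pos` (`X = 10 ^ 8 * W ≤ Y`), `Y ≤ d` (`h2 0 1`), `numXB`;
regular half: `exactEB` with `v = C - cd (Bm b) - cd ms`, `good_of_E_ones`; empty half: `exists_sub`
(ST/NumMain.lean) with `x = C - cd (Bm b)`, `exactEB` with `v = 0`, `E.add`.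
-/

namespace Pool.Agent.helper25.SXB

open MvPolynomial Pool.Agent.helper5.NBS Pool.Agent.helper89.Segre Pool.Agent.SH9
  Pool.Agent.helper25.ST Pool.Agent.helper25.SX

theorem exactMB (j : ℕ) : ∃ C : ℕ, ∀ (d M Y N : ℕ) (b : Fin 8 → ℕ) (ms : Multiset ℕ),
    (∀ μ ∈ ms, μ ≤ M) → (∀ i j k, i ≠ j → j ≠ k → i ≠ k → b i + b j + b k ≤ d) →
    (∀ i j, i ≠ j → b i + b j + Y ≤ d) → ∑ i, b i ^ 2 + N = d ^ 2 → C * (M + 1) ≤ Y →
    C * (M + 1) ^ (5 * 9 ^ j + 1) ≤ N ^ (2 * 9 ^ j) →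
    Good ℂ (tri d) (Bm b + ms) (min (cd (Bm b) + cd ms) (tri d).card) := by
  obtain ⟨C, hC⟩ := numXB j
  refine ⟨C, fun d M Y N b ms hms hb3 hb2 hN hCY hCN => ?_⟩
  obtain ⟨h3, -⟩ := std_three hb3
  have hdY := std_N hb3 hb2 hN
  have hYd : Y ≤ d := by
    have := hb2 0 1 (by decide)
    omega
  obtain ⟨W, A, Δ, w, K0, T0, hW, hΔ1, hWM, hWY, hWd, hWN, hΔ, hA, hw, hwN, hK, hT, hTN⟩ :=
    hC d M Y N hCY hCN hdY hYd
  have hP : Pos d (10 ^ 8 * W) b := by
    refine std_pos hb3 fun i k hik => ?_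
    have := hb2 i k hik
    omega
  have hB : cd (Bm b) ≤ (d + 2).choose 2 := by
    have e1 := two_cd_Bm b
    have e2 := two_choose d
    have e3 : (d + 1) * (d + 2) = d ^ 2 + 3 * d + 2 := by ring
    omega
  rcases Nat.le_total (cd (Bm b) + cd ms) ((d + 2).choose 2) with hc | hc
  · have hE := exactEB (v := (d + 2).choose 2 - (cd (Bm b) + cd ms)) hms hW hΔ1 hWM hP hN h3 hWd
      hWN hΔ hA hw hwN hK hT hTN (by omega) (by omega)
    rw [← add_assoc] at hE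
    have hG := good_of_E_ones hE
    rw [card_tri] at hG ⊢
    rw [Nat.min_eq_left hc]
    have he : (d + 2).choose 2 - ((d + 2).choose 2 - (cd (Bm b) + cd ms)) =
        cd (Bm b) + cd ms := by omega
    rwa [he] at hG
  · have hmsW : ∀ μ ∈ ms, μ + 1 ≤ W := by
      intro μ hμ
      have h2 := hms μ hμ
      have h3 : 1 ≤ 3 ^ j := Nat.one_le_pow _ _ (by norm_num)
      have h4 : 2 * 3 ^ j * (M + 1) = 2 * (3 ^ j * (M + 1)) := by ring
      have h5 : M + 1 ≤ 3 ^ j * (M + 1) := Nat.le_mul_of_pos_left _ h3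
      omega
    obtain ⟨gs, hg, g1, g2⟩ := exists_sub (x := (d + 2).choose 2 - cd (Bm b)) hmsW (by omega)
    have hE := exactEB (v := 0) (fun μ hμ => hms μ (Multiset.mem_of_le hg hμ)) hW hΔ1 hWM hP hN h3
      hWd hWN hΔ hA hw hwN hK hT hTN (by omega) (by omega)
    rw [Multiset.replicate_zero, add_zero] at hE
    obtain ⟨rest, rfl⟩ := Multiset.le_iff_exists_add.mp hg
    have hQ := hE.add rest
    rw [Nat.min_eq_right (by rw [card_tri]; exact hc), ← add_assoc]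
    exact hQ

end Pool.Agent.helper25.SXB
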