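import Pool.Agent.helper25.SXB.Defs
import Pool.Agent.helper25.ST.FinP

set_option autoImplicit false

/-!
# Module FinR: the final configuration with big points, regular case (`finRB`)

Notation: `C = C(d+2,2)`, `2 C = d² + 3 d + 2` (`two_choose`), `2 cd (Bm b) = ∑ b² + ∑ b` (`two_cd_Bm`),
`2 cd ms + S1 ms = S2 ms` (`two_cd`).
`finRB` (as ST/FinR.lean, with `goodP` of ST/FinP.lean): enumeration `m` of `ms` (`exists_fin`), `D = d + 3`,
weights `Fin.append (b + 1) (m + 1)`: the first part of `NefTB` needs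
`∑ (b+1)² + S2 ms + Δ ≤ (d+3)²`: `∑ (b+1)² = 2 cd b + ∑ b + 8`, so
`(d+3)² - ∑ (b+1)² - S2 ms = 2 (C - cd b - cd ms) - S1 ms + (3 d - ∑ b) - 1 ≥ S1 ms + 2 Δ - 1 ≥ Δ`.
`goodP` for the family `Fin.append b m`: `hbig` (strict: `S1 ms ≥ 1`, `Δ ≥ 1`), `hex`: total
`2 ∑ C(m+2,2) = 2 (cd b + cd ms + S1 ms) + 2 ∑ b + 16 ≤ d² + 9 d + 16 < (d+4)(d+5)`. Then
`E_ones_of_good`.
`finNB` (as ST/FinN.lean): enumeration `m` of `ms + replicate s 1` (nonempty by `hne`),
`Sg = ∑ b² + ∑ m²`; `numN` (ST/FinN.lean) needs `d² + 2 d + Δ + 1 ≤ Sg`. If `w ≤ s`: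
`∑ b² + ∑ b + ∑ T² + S1 ≥ 2 cd b + 2 cd ms ≥ 2 C - 2 S1 - 2 Δ + 2` (`sq_ge`), so
`Sg ≥ d² + 3 d + 4 - ∑ b - 3 S1 - 2 Δ + w ≥ d² + 4 - 3 A - 2 Δ + w`. If `C + w ≤ cd b + cd ms + s`:
`Sg ≥ (cd b + cd ms + s) + (cd b + cd ms) - ∑ b - S1 ≥ 2 C + w - 2 S1 - Δ - ∑ b`. Second part of `NefTB` with
`D = Nat.sqrt (Sg + Δ) + 1`, then `finN'` (ST/FinP.lean) for `Fin.append b m`.
-/

namespace Pool.Agent.helper25.SXB

open MvPolynomial Pool.Agent.helper5.NBS Pool.Agent.helper89.Segre Pool.Agent.SH9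
  Pool.Agent.helper25.ST

private lemma append_succ {n : ℕ} (b : Fin 8 → ℕ) (m : Fin n → ℕ) :
    (fun i => Fin.append b m i + 1) = Fin.append (fun i => b i + 1) (fun i => m i + 1) := by
  funext i
  refine Fin.addCases (fun j => ?_) (fun j => ?_) i
  · simp
  · simp

private lemma sum_succ_sq {n : ℕ} (b : Fin 8 → ℕ) (m : Fin n → ℕ) :
    ∑ l, (Fin.append b m l + 1) ^ 2 = ∑ i, (b i + 1) ^ 2 + ∑ i, (m i + 1) ^ 2 := by
  rw [Fin.sum_univ_add]
  simp

private lemma sum_succ_choose {n : ℕ} (b : Fin 8 → ℕ) (m : Fin n → ℕ) :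
    ∑ l, (Fin.append b m l + 2).choose 2 =
      ∑ i, (b i + 2).choose 2 + ∑ i, (m i + 2).choose 2 := by
  rw [Fin.sum_univ_add]
  simp

private lemma two_sum_choose (b : Fin 8 → ℕ) :
    2 * ∑ i, (b i + 2).choose 2 = ∑ i, b i ^ 2 + 3 * ∑ i, b i + 16 := by
  have h : ∀ i : Fin 8, 2 * (b i + 2).choose 2 = b i ^ 2 + 3 * b i + 2 := by
    intro i
    rw [two_choose (b i)]
    ring
  rw [Finset.mul_sum, Finset.sum_congr rfl fun i _ => h i, Finset.sum_add_distrib,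
    Finset.sum_add_distrib, ← Finset.mul_sum]
  simp

private lemma sum_b_succ_sq (b : Fin 8 → ℕ) :
    ∑ i, (b i + 1) ^ 2 = ∑ i, b i ^ 2 + 2 * ∑ i, b i + 8 := by
  have h : ∀ i : Fin 8, (b i + 1) ^ 2 = b i ^ 2 + 2 * b i + 1 := by
    intro i
    ring
  rw [Finset.sum_congr rfl fun i _ => h i, Finset.sum_add_distrib,
    Finset.sum_add_distrib, ← Finset.mul_sum]
  simp

private lemma sum_sq_fin' {n : ℕ} (m : Fin n → ℕ) :
    ∑ i, (m i + 1) ^ 2 = S2 (Finset.univ.val.map m) := by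
  rw [S2, Multiset.map_map]
  rfl

private lemma sum_one_fin' {n : ℕ} (m : Fin n → ℕ) :
    ∑ i, (m i + 1) = S1 (Finset.univ.val.map m) := by
  rw [S1, Multiset.map_map]
  rfl

private lemma sum_choose_fin' {n : ℕ} (m : Fin n → ℕ) :
    2 * ∑ i, (m i + 2).choose 2 = S2 (Finset.univ.val.map m) + S1 (Finset.univ.val.map m) := by
  rw [← sum_sq_fin', ← sum_one_fin', Finset.mul_sum, ← Finset.sum_add_distrib]
  apply Finset.sum_congr rfl
  intro i _
  rw [two_choose (m i)]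
  ring

theorem finRB {d W Δ s : ℕ} {b : Fin 8 → ℕ} {ms : Multiset ℕ} (hΔ : 1 ≤ Δ)
    (hNef : NefTB d b W Δ) (h3 : ∑ i, b i ≤ 3 * d) (hms : ∀ μ ∈ ms, μ + 1 ≤ W) (hne : ms ≠ 0)
    (hR : cd (Bm b) + cd ms + S1 ms + Δ ≤ (d + 2).choose 2)
    (ht : (d + 2).choose 2 ≤ cd (Bm b) + cd ms + s) :
    E d (Bm b + (ms + Multiset.replicate s 1)) := by
  classical
  obtain ⟨n, m, hm⟩ : ∃ n : ℕ, ∃ m : Fin n → ℕ, Finset.univ.val.map m = ms :=
    ⟨_, exists_fin ms⟩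
  subst hm
  have hn : 0 < n := by
    rcases Nat.eq_zero_or_pos n with h | h
    · subst h
      exact absurd (by simp) hne
    · exact h
  have e0 := two_cd_Bm b
  have e1 := two_cd (Finset.univ.val.map m)
  have e2 := two_choose d
  have e2' : (d + 1) * (d + 2) = d ^ 2 + 3 * d + 2 := by ring
  have e3 := two_choose (d + 3)
  have e3' : (d + 3 + 1) * (d + 3 + 2) = d ^ 2 + 9 * d + 20 := by ring
  have e4 : (d + 3) ^ 2 = d ^ 2 + 6 * d + 9 := by ring
  have s1 := sum_sq_fin' m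
  have s1' := sum_one_fin' m
  have s2 := sum_choose_fin' m
  have b1 := sum_b_succ_sq b
  have b2 := two_sum_choose b
  have hS1 : 1 ≤ S1 (Finset.univ.val.map m) := by
    rw [← s1']
    have h : (1 : ℕ) ≤ m ⟨0, hn⟩ + 1 := by omega
    exact h.trans (Finset.single_le_sum (f := fun i => m i + 1) (fun i _ => Nat.zero_le _)
      (Finset.mem_univ (⟨0, hn⟩ : Fin n)))
  have hw : ∀ i, m i + 1 ≤ W := by
    intro i
    apply hms
    exact Multiset.mem_map_of_mem m (Finset.mem_univ_val i)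
  have hNef' := hNef.1 n (fun i => m i + 1) hn hw (by
    rw [s1, b1]
    omega)
  rw [← append_succ] at hNef'
  have hgood : Good ℂ (tri d) (Finset.univ.val.map (Fin.append b m))
      (cd (Finset.univ.val.map (Fin.append b m))) := by
    refine goodP hNef' ?_ ?_
    · rw [sum_succ_sq, s1, b1]
      omega
    · have h5 : (d + 5).choose 2 = (d + 3 + 2).choose 2 := rfl
      rw [sum_succ_choose, h5]
      omega
  rw [map_append' b m] at hgood
  have hcd : cd (Bm b + Finset.univ.val.map m) = cd (Bm b) + cd (Finset.univ.val.map m) := by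
    rw [cd, cd, cd, Multiset.map_add, Multiset.sum_add]
  rw [← add_assoc]
  refine E_ones_of_good hgood ?_
  rw [card_tri, hcd]
  exact ht

end Pool.Agent.helper25.SXB
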