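import Pool.Agent.helper25.SXB.AllB
import Pool.Agent.helper25.SXB.Drop

set_option autoImplicit false

/-!
# Module FinX: the theorem for Cremona standard systems

`exactStd`: choose `j` with `1 ≤ 2 * 9 ^ j * ε` (as in `exactEps2`, SX/FinY.lean), `C0` from `exactAllB j`, `C`
large (`C ≥ 4 (C0 + 1)`), `M = m 8`, `Y = C0 * (M + 1)`, `b i = m i` if `i < h` else `0` (`i : Fin 8`),
`N = d² - ∑ b²` (`std_three`). If `h = 8 + h'`: `ms = univ.val.map (fun i : Fin h' => m (8 + i))`, the family is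
`Bm b + ms` (`map_append'` or `Fin` sums); if `h < 8`: `ms = 0`, and
`Bm b = univ.val.map (fun i : Fin h => m i) + replicate (8 - h) 0`, `good_drop_zero`. The conditions: `m` is
antitone, so for distinct `i, j, k` the sum is at most `m 0 + m 1 + m 2`, and `b i + b j ≤ m 0 + m 1`; `∑ b² ≤
∑_(i < 8) m i ²`; in the second alternative `cd ms ≥ (1/2) ∑_(8 ≤ i < h) m i ²` (the sum is empty, so the alternative
is impossible, if `h < 8`). The real exponents as in SX/FinY.lean. Then `generic_of_good`.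
-/

namespace Pool.Agent.helper25.SXB

open MvPolynomial Pool.Agent.helper5.NBS Pool.Agent.helper89.Segre Pool.Agent.SH9
  Pool.Agent.helper25.ST Pool.Agent.helper25.SX


private lemma map_univ_range (n : ℕ) (f : ℕ → ℕ) :
    (Finset.univ : Finset (Fin n)).val.map (fun i : Fin n => f i) = (Multiset.range n).map f := by
  induction n with
  | zero => rfl
  | succ n ih =>
    rw [Multiset.range_succ, Multiset.map_cons, ← ih]
    rw [Fin.univ_castSuccEmb]
    simp [Function.comp_def]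

/-- the largest three among distinct indices of an antitone sequence -/
private lemma three_le {m : ℕ → ℕ} (hm : Antitone m) {i j k : ℕ} (hij : i ≠ j) (hjk : j ≠ k)
    (hik : i ≠ k) : m i + m j + m k ≤ m 0 + m 1 + m 2 := by
  have key : ∀ a b c : ℕ, a < b → b < c → m a + m b + m c ≤ m 0 + m 1 + m 2 := by
    intro a b c h1 h2
    have e0 : m a ≤ m 0 := hm (Nat.zero_le a)
    have e1 : m b ≤ m 1 := hm (by omega)
    have e2 : m c ≤ m 2 := hm (by omega)
    omega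
  rcases lt_or_gt_of_ne hij with h1 | h1 <;> rcases lt_or_gt_of_ne hjk with h2 | h2 <;>
    rcases lt_or_gt_of_ne hik with h3 | h3
  · exact key i j k h1 h2
  · omega
  · have := key i k j h3 h2; omega
  · have := key k i j h3 h1; omega
  · have := key j i k h1 h3; omega
  · have := key j k i h2 h3; omega
  · omega
  · have := key k j i h2 h1; omega

private lemma two_le {m : ℕ → ℕ} (hm : Antitone m) {i j : ℕ} (hij : i ≠ j) :
    m i + m j ≤ m 0 + m 1 := by
  rcases lt_or_gt_of_ne hij with h1 | h1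
  · have e0 : m i ≤ m 0 := hm (Nat.zero_le i)
    have e1 : m j ≤ m 1 := hm (by omega)
    omega
  · have e0 : m j ≤ m 0 := hm (Nat.zero_le j)
    have e1 : m i ≤ m 1 := hm (by omega)
    omega

private lemma pow_le {ε : ℝ} {j C0 M x : ℕ} (hj1 : 1 ≤ 2 * (9 : ℝ) ^ j * ε)
    (h : ((C0 : ℝ) + 1) * ((M : ℝ) + 1) ^ (5 / 2 + ε) ≤ (x : ℝ)) :
    C0 * (M + 1) ^ (5 * 9 ^ j + 1) ≤ x ^ (2 * 9 ^ j) := by
  have hM1 : (1 : ℝ) ≤ (M : ℝ) + 1 := by
    have := Nat.cast_nonneg (α := ℝ) M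
    linarith
  have hM0 : (0 : ℝ) ≤ (M : ℝ) + 1 := by linarith
  have hCn : (0 : ℝ) ≤ C0 := Nat.cast_nonneg C0
  have hN0 : 2 * 9 ^ j ≠ 0 := by positivity
  have hC1 : (1 : ℝ) ≤ (C0 : ℝ) + 1 := by linarith
  have key : ((C0 * (M + 1) ^ (5 * 9 ^ j + 1) : ℕ) : ℝ) ≤ ((x ^ (2 * 9 ^ j) : ℕ) : ℝ) := by
    have h1 : (((C0 : ℝ) + 1) * ((M : ℝ) + 1) ^ (5 / 2 + ε)) ^ (2 * 9 ^ j) ≤
        (x : ℝ) ^ (2 * 9 ^ j) :=
      pow_le_pow_left₀ (mul_nonneg (by linarith) (Real.rpow_nonneg hM0 _)) h _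
    have h2 : ((M : ℝ) + 1) ^ (5 * 9 ^ j + 1) ≤ (((M : ℝ) + 1) ^ (5 / 2 + ε)) ^ (2 * 9 ^ j) := by
      rw [← Real.rpow_natCast (((M : ℝ) + 1) ^ (5 / 2 + ε)), ← Real.rpow_mul hM0,
        ← Real.rpow_natCast ((M : ℝ) + 1)]
      apply Real.rpow_le_rpow_of_exponent_le hM1
      push_cast
      nlinarith
    have h3 : (C0 : ℝ) ≤ ((C0 : ℝ) + 1) ^ (2 * 9 ^ j) :=
      le_trans (by linarith) (le_self_pow₀ hC1 hN0)
    push_cast
    calc (C0 : ℝ) * ((M : ℝ) + 1) ^ (5 * 9 ^ j + 1)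
        ≤ ((C0 : ℝ) + 1) ^ (2 * 9 ^ j) * (((M : ℝ) + 1) ^ (5 / 2 + ε)) ^ (2 * 9 ^ j) :=
          mul_le_mul h3 h2 (pow_nonneg hM0 _) (pow_nonneg (by linarith) _)
      _ = (((C0 : ℝ) + 1) * ((M : ℝ) + 1) ^ (5 / 2 + ε)) ^ (2 * 9 ^ j) := (mul_pow _ _ _).symm
      _ ≤ _ := h1
  exact_mod_cast key

private lemma sq_le_two_cd (n : ℕ) (f : ℕ → ℕ) :
    ∑ i ∈ Finset.range n, f i ^ 2 ≤ 2 * cd ((Multiset.range n).map f) := by
  have h1 : cd ((Multiset.range n).map f) = ∑ i ∈ Finset.range n, kk (f i) := by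
    rw [cd, Multiset.map_map]
    rfl
  rw [h1, Finset.mul_sum]
  refine Finset.sum_le_sum fun i _ => ?_
  rw [two_mul_kk]
  nlinarith

/-- the multiset splits into the first eight multiplicities and the others -/
private lemma split8 (h : ℕ) (m : ℕ → ℕ) :
    (Finset.univ : Finset (Fin h)).val.map (fun i : Fin h => m i) + Multiset.replicate (8 - h) 0 =
      Bm (fun i : Fin 8 => if (i : ℕ) < h then m i else 0) +
        (Multiset.range (h - 8)).map (fun i => m (8 + i)) := by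
  have hB : Bm (fun i : Fin 8 => if (i : ℕ) < h then m i else 0) =
      (Multiset.range 8).map (fun i => if i < h then m i else 0) :=
    map_univ_range 8 (fun i => if i < h then m i else 0)
  rw [hB, map_univ_range]
  rcases Nat.lt_or_ge h 8 with h8 | h8
  · have e1 : h - 8 = 0 := by omega
    obtain ⟨k, hk⟩ : ∃ k, 8 = h + k := ⟨8 - h, by omega⟩
    have e2 : 8 - h = k := by omega
    rw [e1, e2]
    rw [Multiset.range_zero, Multiset.map_zero, add_zero]
    rw [hk, Multiset.range_add, Multiset.map_add, Multiset.map_map]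
    congr 1
    · refine Multiset.map_congr rfl fun i hi => ?_
      rw [Multiset.mem_range] at hi
      rw [if_pos hi]
    · symm
      rw [Multiset.eq_replicate]
      refine ⟨by simp, fun x hx => ?_⟩
      obtain ⟨i, _, rfl⟩ := Multiset.mem_map.mp hx
      simp
  · have e1 : 8 - h = 0 := by omega
    obtain ⟨k, hk⟩ : ∃ k, h = 8 + k := ⟨h - 8, by omega⟩
    subst hk
    have e2 : 8 + k - 8 = k := by omega
    rw [e1, e2, Multiset.replicate_zero, add_zero, Multiset.range_add, Multiset.map_add,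
      Multiset.map_map]
    congr 1
    refine Multiset.map_congr rfl fun i hi => ?_
    rw [Multiset.mem_range] at hi
    rw [if_pos (by omega)]

theorem exactStd (ε : ℝ) (hε : 0 < ε) : ∃ C : ℝ, 0 < C ∧ ∀ (d h : ℕ) (m : ℕ → ℕ),
    Antitone m → m 0 + m 1 + m 2 ≤ d → (m 0 : ℝ) + m 1 + C * ((m 8 : ℝ) + 1) ≤ d →
    (∑ i ∈ Finset.range 8, (m i : ℝ) ^ 2 + C * ((m 8 : ℝ) + 1) ^ (5 / 2 + ε) ≤ (d : ℝ) ^ 2 ∨
      C * ((m 8 : ℝ) + 1) ^ (5 / 2 + ε) ≤ ∑ i ∈ Finset.Ico 8 h, (m i : ℝ) ^ 2) →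
    ∃ Q : MvPolynomial (Fin h × Fin 3) ℂ, Q ≠ 0 ∧ ∀ p : Fin h → Fin 3 → ℂ,
      eval (fun ij : Fin h × Fin 3 => p ij.1 ij.2) Q ≠ 0 →
      Module.finrank ℂ (sys d h (fun i => m i) p) =
        (d + 2).choose 2 - ∑ k : Fin h, (m k + 1).choose 2 := by
  obtain ⟨j, hj⟩ := pow_unbounded_of_one_lt (1 / (2 * ε)) (by norm_num : (1 : ℝ) < 9)
  have hj1 : 1 ≤ 2 * (9 : ℝ) ^ j * ε := by
    rw [div_lt_iff₀ (by positivity)] at hj
    nlinarith
  obtain ⟨C0, hC⟩ := exactAllB j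
  have hC0 : (0 : ℝ) ≤ C0 := Nat.cast_nonneg C0
  refine ⟨4 * ((C0 : ℝ) + 1), by positivity, ?_⟩
  intro d h m hm h3 h2 hd
  obtain ⟨b, hb⟩ : ∃ b : Fin 8 → ℕ, b = fun i : Fin 8 => if (i : ℕ) < h then m i else 0 :=
    ⟨_, rfl⟩
  obtain ⟨ms, hms⟩ : ∃ ms : Multiset ℕ, ms = (Multiset.range (h - 8)).map (fun i => m (8 + i)) :=
    ⟨_, rfl⟩
  have hbm : ∀ i, b i ≤ m i := by
    intro i
    rw [hb]
    simp only
    split_ifs
    · exact le_rfl
    · exact Nat.zero_le _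
  have hM1 : (1 : ℝ) ≤ (m 8 : ℝ) + 1 := by
    have := Nat.cast_nonneg (α := ℝ) (m 8)
    linarith
  have hX0 : 0 ≤ ((m 8 : ℝ) + 1) ^ (5 / 2 + ε) := Real.rpow_nonneg (by linarith) _
  have H3 : ∀ i k l, i ≠ k → k ≠ l → i ≠ l → b i + b k + b l ≤ d := by
    intro i k l hik hkl hil
    have e := three_le hm (i := i) (j := k) (k := l) (fun e => hik (Fin.ext e))
      (fun e => hkl (Fin.ext e)) (fun e => hil (Fin.ext e))
    have e1 := hbm i
    have e2 := hbm k
    have e3 := hbm l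
    omega
  have hY : m 0 + m 1 + C0 * (m 8 + 1) ≤ d := by
    have e1 : ((m 0 + m 1 + C0 * (m 8 + 1) : ℕ) : ℝ) ≤ (d : ℝ) := by
      push_cast
      nlinarith
    exact_mod_cast e1
  have H2 : ∀ i k, i ≠ k → b i + b k + C0 * (m 8 + 1) ≤ d := by
    intro i k hik
    have e := two_le hm (i := i) (j := k) (fun e => hik (Fin.ext e))
    have e1 := hbm i
    have e2 := hbm k
    omega
  obtain ⟨-, hsq⟩ := std_three H3
  obtain ⟨N, hN⟩ : ∃ N, ∑ i, b i ^ 2 + N = d ^ 2 := ⟨d ^ 2 - ∑ i, b i ^ 2, by omega⟩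
  have hle : ∀ μ ∈ ms, μ ≤ m 8 := by
    intro μ hμ
    rw [hms] at hμ
    obtain ⟨i, _, rfl⟩ := Multiset.mem_map.mp hμ
    exact hm (by omega)
  have hG := hC d (m 8) (C0 * (m 8 + 1)) N b ms hle H3 H2 hN le_rfl (by
    rcases hd with hd | hd
    · left
      refine pow_le hj1 ?_
      have e1 : ∑ i : Fin 8, (b i : ℝ) ^ 2 ≤ ∑ i ∈ Finset.range 8, (m i : ℝ) ^ 2 := by
        rw [← Fin.sum_univ_eq_sum_range (fun i => (m i : ℝ) ^ 2) 8]
        refine Finset.sum_le_sum fun i _ => ?_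
        have e2 : (b i : ℝ) ≤ (m i : ℝ) := by exact_mod_cast hbm i
        exact pow_le_pow_left₀ (Nat.cast_nonneg _) e2 2
      have e3 : ∑ i : Fin 8, (b i : ℝ) ^ 2 + (N : ℝ) = (d : ℝ) ^ 2 := by exact_mod_cast hN
      nlinarith [mul_nonneg hC0 hX0]
    · right
      refine pow_le hj1 ?_
      rw [Finset.sum_Ico_eq_sum_range] at hd
      have e1 := sq_le_two_cd (h - 8) (fun i => m (8 + i))
      rw [← hms] at e1
      have e2 : ∑ i ∈ Finset.range (h - 8), (m (8 + i) : ℝ) ^ 2 ≤ 2 * (cd ms : ℝ) := by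
        exact_mod_cast e1
      nlinarith [mul_nonneg hC0 hX0])
  have hcd : cd (Bm b) + cd ms = ∑ k : Fin h, (m k + 1).choose 2 := by
    have e1 : cd (Bm b) + cd ms = cd (Bm b + ms) := by
      simp only [cd, Multiset.map_add, Multiset.sum_add]
    rw [e1, hb, hms, ← split8]
    have e2 : cd ((Finset.univ : Finset (Fin h)).val.map (fun i : Fin h => m i) +
        Multiset.replicate (8 - h) 0) =
        cd ((Finset.univ : Finset (Fin h)).val.map (fun i : Fin h => m i)) := by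
      simp [cd, kk, Multiset.map_replicate]
    rw [e2]
    exact sumkk_eq (fun i : Fin h => m i)
  rw [hcd, card_tri, hb, hms, ← split8] at hG
  exact generic_of_good (good_drop_zero hG)

end Pool.Agent.helper25.SXB
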