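import Pool.Agent.helper25.SXB.Lorentz

set_option autoImplicit false

/-!
# Module NearNum: the numerical part of `Near.pos` (module Inherit)

Only `near_num` is asked for here; the text describes the whole argument.

`Near.pos`: countable set: the one of `Pos D X b` and that of Xu's inequality at nine points
(`Pool.Agent.helper7.SC.wxu 1 9 one_pos`). Let `F'` be irreducible, `E = deg`, `γ` its eight
multiplicities, `g` the ninth, `c = E² - ∑ γ²` (an integer). Xu's inequality: `- E ≤ c` (if some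
`γ i > 0`: `∑ γ² ≤ E² + γ i ≤ E² + E` by `Nef0aux.mult_le_deg`; else `c = E²`). `a = D E - ∑ b γ` satisfies
`a ≥ X g`, `16 a ≥ X E` (`Pos`). With `f`, `mm` of `Near.near`, `rev_cs`: `N NF ≤ f² ≤ N (NF + mm)`.
`lorentz`: `φ = e E - ∑ β γ`, `(a f - φ N)² ≤ (f² - N NF) (a² - N c) ≤ N mm (a² + N E)`. So
`φ N ≥ a √(N NF) - √(N mm) a - N √(mm E)`. First error: `√mm ≤ √NF / 31`. Second:
`N² mm E ≤ (1/5) a² N NF`: `mm N ≤ mm² N ≤ (49/36) NF W²` and `a² ≥ X² E² / 256`, `X ≥ 100 W`, `E ≥ 1`. As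
`1/31 + √(1/5) ≤ 1/2` we get `2 φ N ≥ a √(N NF)`, i.e. `4 φ² N ≥ a² NF` and `φ ≥ 0`. With
`4 X'² N ≤ NF X²`: `φ ≥ X' g` and `16 φ ≥ X' E` (compare squares: `4 N (16 φ)² ≥ 256 a² NF ≥ X² E² NF
≥ 4 X'² N E²`).
`pos_up`: union of the countable sets of `Pos e X β` and `pos_three`; add the inequalities.
`pos_mono`: clear.
-/

namespace Pool.Agent.helper25.SXB

open MvPolynomial Pool.Agent.helper5.NBS Pool.Agent.helper89.Segre Pool.Agent.SH9
  Pool.Agent.helper25.ST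

/-- real form of the last steps -/
theorem near_real {N NF W X X' E g a f φ mm c : ℝ} (hN0 : 0 < N) (hNF : 0 < NF) (hW : 1 ≤ W)
    (hX : 100 * W ≤ X) (hX0' : 0 ≤ X') (hX' : 4 * (X' ^ 2 * N) ≤ NF * X ^ 2) (hE : 1 ≤ E)
    (hg : 0 ≤ g) (hc : -E ≤ c) (ha1 : X * g ≤ a) (ha2 : X * E ≤ 16 * a) (hf0 : 0 ≤ f)
    (hf1 : N * NF ≤ f ^ 2) (hf2 : f ^ 2 ≤ N * (NF + mm)) (hm1 : 1 ≤ mm) (hm2 : 1000 * mm ≤ NF)
    (hm3 : 36 * (mm ^ 2 * N) ≤ 49 * (NF * W ^ 2))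
    (hl : (φ * N - a * f) ^ 2 ≤ (f ^ 2 - N * NF) * (a ^ 2 - N * c)) :
    X' * g ≤ φ ∧ X' * E ≤ 16 * φ := by
  have hX0 : 0 < X := by linarith
  have ha0 : 0 < a := by nlinarith
  -- `mm N E ≤ a² NF / 25`
  have h1 : mm * N ≤ mm ^ 2 * N := by nlinarith
  have h2 : 36 * (mm * N) ≤ 49 * (NF * W ^ 2) := by linarith
  have h3 : (100 * W * E) ^ 2 ≤ (16 * a) ^ 2 := by
    apply pow_le_pow_left₀ (by positivity)
    exact (mul_le_mul_of_nonneg_right hX (by linarith)).trans ha2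
  have h4 : 10000 * (W ^ 2 * E) ≤ 256 * a ^ 2 := by
    have h5 : W ^ 2 * E ≤ W ^ 2 * E ^ 2 := by
      apply mul_le_mul_of_nonneg_left _ (by positivity)
      nlinarith
    nlinarith
  have h5 : mm * N * E ≤ a ^ 2 * NF / 25 := by
    have h6 : 36 * (mm * N) * E ≤ 49 * (NF * W ^ 2) * E :=
      mul_le_mul_of_nonneg_right h2 (by linarith)
    have h7 : NF * (10000 * (W ^ 2 * E)) ≤ NF * (256 * a ^ 2) :=
      mul_le_mul_of_nonneg_left h4 hNF.le
    have e1 : 36 * (mm * N) * E = 36 * (mm * N * E) := by ring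
    have e2 : 49 * (NF * W ^ 2) * E = 49 * (NF * (W ^ 2 * E)) := by ring
    have e3 : NF * (10000 * (W ^ 2 * E)) = 10000 * (NF * (W ^ 2 * E)) := by ring
    have e4 : NF * (256 * a ^ 2) = 256 * (a ^ 2 * NF) := by ring
    have e5 : 0 ≤ a ^ 2 * NF := by positivity
    linarith
  have h6 : mm * a ^ 2 ≤ a ^ 2 * NF / 1000 := by nlinarith [sq_nonneg a]
  -- the square of the difference
  have h7 : (f ^ 2 - N * NF) * (a ^ 2 - N * c) ≤ N * mm * (a ^ 2 + N * E) := by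
    have h8 : a ^ 2 - N * c ≤ a ^ 2 + N * E := by nlinarith
    have h9 : 0 ≤ a ^ 2 + N * E := by positivity
    calc (f ^ 2 - N * NF) * (a ^ 2 - N * c) ≤ (f ^ 2 - N * NF) * (a ^ 2 + N * E) :=
          mul_le_mul_of_nonneg_left h8 (by linarith)
      _ ≤ N * mm * (a ^ 2 + N * E) := mul_le_mul_of_nonneg_right (by linarith) h9
  have h8 : N * mm * (a ^ 2 + N * E) ≤ (a * f / 2) ^ 2 := by
    have h9 : N * mm * (a ^ 2 + N * E) = N * (mm * a ^ 2) + N * (mm * N * E) := by ring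
    have h10 : N * (mm * a ^ 2) ≤ N * (a ^ 2 * NF / 1000) := mul_le_mul_of_nonneg_left h6 hN0.le
    have h11 : N * (mm * N * E) ≤ N * (a ^ 2 * NF / 25) := mul_le_mul_of_nonneg_left h5 hN0.le
    have h12 : a ^ 2 * (N * NF) ≤ a ^ 2 * f ^ 2 := mul_le_mul_of_nonneg_left hf1 (sq_nonneg a)
    have h13 : 0 ≤ a ^ 2 * (N * NF) := by positivity
    have e1 : N * (a ^ 2 * NF / 1000) = a ^ 2 * (N * NF) / 1000 := by ring
    have e2 : N * (a ^ 2 * NF / 25) = a ^ 2 * (N * NF) / 25 := by ring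
    have e3 : (a * f / 2) ^ 2 = a ^ 2 * f ^ 2 / 4 := by ring
    linarith
  have h9 : |φ * N - a * f| ≤ a * f / 2 :=
    abs_le_of_sq_le_sq (hl.trans (h7.trans h8)) (by positivity)
  have h10 : a * f ≤ 2 * (φ * N) := by
    have := (abs_le.mp h9).1
    linarith
  -- compare with `X'`
  have h11 : 2 * N * X' ≤ f * X := by
    have e1 : (2 * N * X') ^ 2 ≤ (f * X) ^ 2 := by
      have e2 : N * NF * X ^ 2 ≤ f ^ 2 * X ^ 2 := mul_le_mul_of_nonneg_right hf1 (sq_nonneg X)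
      have e3 : N * (4 * (X' ^ 2 * N)) ≤ N * (NF * X ^ 2) := mul_le_mul_of_nonneg_left hX' hN0.le
      have e4 : (2 * N * X') ^ 2 = N * (4 * (X' ^ 2 * N)) := by ring
      have e5 : (f * X) ^ 2 = f ^ 2 * X ^ 2 := by ring
      have e6 : N * NF * X ^ 2 = N * (NF * X ^ 2) := by ring
      linarith
    exact (abs_le.mp (abs_le_of_sq_le_sq e1 (by positivity))).2
  have h12 : a * X' ≤ φ * X := by
    have h13 : a * (2 * N * X') ≤ a * (f * X) := mul_le_mul_of_nonneg_left h11 ha0.le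
    have h14 : a * f * X ≤ 2 * (φ * N) * X := mul_le_mul_of_nonneg_right h10 hX0.le
    have e1 : a * (2 * N * X') = 2 * (N * (a * X')) := by ring
    have e2 : a * (f * X) = a * f * X := by ring
    have e3 : 2 * (φ * N) * X = 2 * (N * (φ * X)) := by ring
    have h15 : N * (a * X') ≤ N * (φ * X) := by linarith
    exact le_of_mul_le_mul_left h15 hN0
  constructor
  · have e1 : X * g * X' ≤ a * X' := mul_le_mul_of_nonneg_right ha1 hX0'
    have e2 : X * (X' * g) = X * g * X' := by ring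
    have e3 : X * φ = φ * X := by ring
    have h13 : X * (X' * g) ≤ X * φ := by linarith
    exact le_of_mul_le_mul_left h13 hX0
  · have e1 : X * E * X' ≤ 16 * a * X' := mul_le_mul_of_nonneg_right ha2 hX0'
    have e2 : X * (X' * E) = X * E * X' := by ring
    have e3 : X * (16 * φ) = 16 * (φ * X) := by ring
    have e4 : 16 * a * X' = 16 * (a * X') := by ring
    have h13 : X * (X' * E) ≤ X * (16 * φ) := by linarith
    exact le_of_mul_le_mul_left h13 hX0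

/-- the numerical core of `Near.pos` -/
theorem near_num {D N e NF W X X' E g : ℕ} {b β γ : Fin 8 → ℕ} (h : Near D b N e β NF W)
    (hW : 1 ≤ W) (hX : 100 * W ≤ X) (hX' : 4 * (X' ^ 2 * N) ≤ NF * X ^ 2) (hE : 1 ≤ E)
    (hN0 : 0 < N) (hc : ∑ i, γ i ^ 2 ≤ E ^ 2 + E) (h1 : ∑ i, b i * γ i + X * g ≤ D * E)
    (h2 : 16 * ∑ i, b i * γ i + X * E ≤ 16 * (D * E)) :
    ∑ i, β i * γ i + X' * g ≤ e * E ∧ 16 * ∑ i, β i * γ i + X' * E ≤ 16 * (e * E) := by
  obtain ⟨f, mm, hf, hf2, hm1, hm2, hm3⟩ := h.near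
  have hNF0 : 0 < NF := by omega
  -- real versions
  have r1 : ∑ i, (b i : ℝ) ^ 2 + N = (D : ℝ) ^ 2 := by exact_mod_cast h.hN
  have r2 : ∑ i, (β i : ℝ) ^ 2 + NF = (e : ℝ) ^ 2 := by exact_mod_cast h.hNF
  have r3 : ∑ i, (b i : ℝ) * β i + f = (D : ℝ) * e := by exact_mod_cast hf
  obtain ⟨hf0, hf1⟩ := rev_cs (D := (D : ℝ)) (e := e) (N := N) (NF := NF) (f := f)
    (Nat.cast_nonneg _) (Nat.cast_nonneg _) r1 (Nat.cast_nonneg _) r2 (Nat.cast_nonneg _) r3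
  have hl := lorentz (D := (D : ℝ)) (e := e) (E := E) (N := N) (NF := NF)
    (c := (E : ℝ) ^ 2 - ∑ i, (γ i : ℝ) ^ 2) (a := (D : ℝ) * E - ∑ i, (b i : ℝ) * γ i) (f := f)
    (φ := (e : ℝ) * E - ∑ i, (β i : ℝ) * γ i) r1 (by exact_mod_cast hN0) r2 (by ring) (by ring) r3
    (by ring)
  have hcR : -(E : ℝ) ≤ (E : ℝ) ^ 2 - ∑ i, (γ i : ℝ) ^ 2 := by
    have : ∑ i, (γ i : ℝ) ^ 2 ≤ (E : ℝ) ^ 2 + E := by exact_mod_cast hc
    linarith
  have h1R : (X : ℝ) * g ≤ (D : ℝ) * E - ∑ i, (b i : ℝ) * γ i := by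
    have : ∑ i, (b i : ℝ) * γ i + (X : ℝ) * g ≤ (D : ℝ) * E := by exact_mod_cast h1
    linarith
  have h2R : (X : ℝ) * E ≤ 16 * ((D : ℝ) * E - ∑ i, (b i : ℝ) * γ i) := by
    have : 16 * ∑ i, (b i : ℝ) * γ i + (X : ℝ) * E ≤ 16 * ((D : ℝ) * E) := by exact_mod_cast h2
    linarith
  obtain ⟨c1, c2⟩ := near_real (N := (N : ℝ)) (NF := NF) (W := W) (X := X) (X' := X') (E := E)
    (g := g) (a := (D : ℝ) * E - ∑ i, (b i : ℝ) * γ i) (f := f)
    (φ := (e : ℝ) * E - ∑ i, (β i : ℝ) * γ i) (mm := mm)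
    (c := (E : ℝ) ^ 2 - ∑ i, (γ i : ℝ) ^ 2)
    (by exact_mod_cast hN0) (by exact_mod_cast hNF0) (by exact_mod_cast hW)
    (by exact_mod_cast hX) (Nat.cast_nonneg _) (by exact_mod_cast hX') (by exact_mod_cast hE)
    (Nat.cast_nonneg _) hcR h1R h2R hf0 hf1 (by exact_mod_cast hf2) (by exact_mod_cast hm1)
    (by exact_mod_cast hm2) (by exact_mod_cast hm3) hl
  constructor
  · have : ∑ i, (β i : ℝ) * γ i + (X' : ℝ) * g ≤ (e : ℝ) * E := by linarith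
    exact_mod_cast this
  · have : 16 * ∑ i, (β i : ℝ) * γ i + (X' : ℝ) * E ≤ 16 * ((e : ℝ) * E) := by linarith
    exact_mod_cast this

end Pool.Agent.helper25.SXB
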