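import Pool.Agent.helper25.SXB.Three
import Pool.Agent.helper25.SXB.NearNum

set_option autoImplicit false

/-!
# Module Inherit: `Pos` is inherited by curves close to `(D; b)`

`Near.pos` (with `near_num` of module NearNum; `Near.deg` is `deg_real`): countable set: the one of `Pos D X b` and that of Xu's inequality at nine points
(`Pool.Agent.helper7.SC.wxu 1 9 one_pos`). Let `F'` be irreducible, `E = deg`, `γ` its eight
multiplicities, `g` the ninth, `c = E² - ∑ γ²` (an integer). Xu's inequality: `- E ≤ c` (if some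
`γ i > 0`: `∑ γ² ≤ E² + γ i ≤ E² + E` by `Nef0aux.mult_le_deg`; else `c = E²`). `a = D E - ∑ b γ` satisfies
`a ≥ X g`, `16 a ≥ X E` (`Pos`). With `f`, `mm` of `Near.near`, `rev_cs`: `N NF ≤ f² ≤ N (NF + mm)`.
`lorentz`: `φ = e E - ∑ β γ`, `(a f - φ N)² ≤ (f² - N NF) (a² - N c) ≤ N mm (a² + N E)`. So
`φ N ≥ a √(N NF) - √(N mm) a - N √(mm E)`. First error: `√mm ≤ √NF / 31`. Second:
`N² mm E ≤ (1/5) a² N NF`: `mm N ≤ mm² N ≤ (49/36) NF W²` and `a² ≥ X² E² / 256`, `X ≥ 100 W`, `E ≥ 1`. As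
`1/31 + √(1/5) ≤ 1/2` we get `2 φ N ≥ a √(N NF)`, i.e. `4 φ² N ≥ a² NF` and `φ ≥ 0`. With
`4 X'² N ≤ NF X²`: `φ ≥ X' g` and `16 φ ≥ X' E` (compare squares: `4 N (16 φ)² ≥ 256 a² NF ≥ X² E² NF
≥ 4 X'² N E²`).
`pos_up`: union of the countable sets of `Pos e X β` and `pos_three`; add the inequalities.
`pos_mono`: clear.
-/

namespace Pool.Agent.helper25.SXB

open MvPolynomial Pool.Agent.helper5.NBS Pool.Agent.helper89.Segre Pool.Agent.SH9
  Pool.Agent.helper25.ST Pool.Agent.helper22.SC Pool.Agent.helper7.SC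

theorem Near.pos {D N e NF W X X' : ℕ} {b β : Fin 8 → ℕ} (h : Near D b N e β NF W)
    (hP : Pos D X b) (hW : 1 ≤ W) (hX : 100 * W ≤ X) (hN0 : 0 < N)
    (hX' : 4 * (X' ^ 2 * N) ≤ NF * X ^ 2) : Pos e X' β := by
  obtain ⟨T, hT, hT0, hq⟩ := hP
  refine ⟨T ∪ TN one_pos 9, hT.union (TN_countable one_pos _), ?_, ?_⟩
  · rintro Q (hQ | hQ)
    · exact hT0 Q hQ
    · exact TN_ne one_pos _ Q hQ
  · intro q hQ F hF
    have hV : VGN one_pos q := VGN_of one_pos (fun Q hQ' => hQ Q (Or.inr hQ'))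
    obtain ⟨h1, h2⟩ := hq q (fun Q hQ' => hQ Q (Or.inl hQ')) F hF
    have hE : 1 ≤ wdeg 1 F := wdeg_pos one_pos hF
    have hc : ∑ i : Fin 8, mult (q (Fin.castAdd 1 i)) F ^ 2 ≤ wdeg 1 F ^ 2 + wdeg 1 F := by
      by_cases hz : ∀ i : Fin 8, mult (q (Fin.castAdd 1 i)) F = 0
      · rw [Finset.sum_eq_zero (fun i _ => by rw [hz i]; rfl)]
        exact Nat.zero_le _
      · push Not at hz
        obtain ⟨j, hj⟩ := hz
        have h3 := Pool.Agent.KD.xuOne hV hF (Fin.castAdd 1 j) (Nat.pos_of_ne_zero hj)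
        have h4 : mult (q (Fin.castAdd 1 j)) F ≤ wdeg 1 F :=
          Pool.Agent.helper25.ST.Nef0aux.mult_le_deg _ hF.ne_zero
        have h5 : ∑ i : Fin (8 + 1), mult (q i) F ^ 2 =
            ∑ i : Fin 8, mult (q (Fin.castAdd 1 i)) F ^ 2 +
              ∑ i : Fin 1, mult (q (Fin.natAdd 8 i)) F ^ 2 := Fin.sum_univ_add _
        have h6 : ∑ i : Fin (8 + 1), mult (q i) F ^ 2 ≤
          wdeg 1 F ^ 2 + mult (q (Fin.castAdd 1 j)) F := h3
        omega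
    exact near_num (γ := fun i => mult (q (Fin.castAdd 1 i)) F) h hW hX hX' hE hN0 hc h1 h2

theorem pos_up {e X : ℕ} {β : Fin 8 → ℕ} (h : Pos e X β) : Pos (e + 3) X (fun i => β i + 1) := by
  obtain ⟨T, hT, hT0, hq⟩ := h
  obtain ⟨T', hT', hT0', hq'⟩ := pos_three
  refine ⟨T ∪ T', hT.union hT', ?_, ?_⟩
  · rintro Q (hQ | hQ)
    · exact hT0 Q hQ
    · exact hT0' Q hQ
  · intro q hQ F hF
    obtain ⟨h1, h2⟩ := hq q (fun Q hQ' => hQ Q (Or.inl hQ')) F hF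
    obtain ⟨h3, h4⟩ := hq' q (fun Q hQ' => hQ Q (Or.inr hQ')) F hF
    have h5 : ∑ i : Fin 8, (β i + 1) * mult (q (Fin.castAdd 1 i)) F =
        ∑ i : Fin 8, β i * mult (q (Fin.castAdd 1 i)) F +
          ∑ i : Fin 8, 1 * mult (q (Fin.castAdd 1 i)) F := by
      rw [← Finset.sum_add_distrib]
      exact Finset.sum_congr rfl fun i _ => by ring
    have h6 : (e + 3) * wdeg 1 F = e * wdeg 1 F + 3 * wdeg 1 F := by ring
    beta_reduce at h3 h4
    constructor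
    · show ∑ i : Fin 8, (β i + 1) * mult (q (Fin.castAdd 1 i)) F + _ ≤ _
      rw [h5, h6]
      omega
    · show 16 * ∑ i : Fin 8, (β i + 1) * mult (q (Fin.castAdd 1 i)) F + _ ≤ _
      rw [h5, h6]
      omega

theorem pos_mono {e e' X : ℕ} {β : Fin 8 → ℕ} (h : Pos e X β) (he : e ≤ e') : Pos e' X β := by
  obtain ⟨T, hT, hT0, hq⟩ := h
  refine ⟨T, hT, hT0, fun q hQ F hF => ?_⟩
  obtain ⟨h1, h2⟩ := hq q hQ F hF
  have h3 : e * wdeg 1 F ≤ e' * wdeg 1 F := Nat.mul_le_mul_right _ he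
  constructor
  · omega
  · omega

theorem Near.deg {D N e NF W : ℕ} {b β : Fin 8 → ℕ} (h : Near D b N e β NF W) (hN0 : 0 < N) :
    100 * (e ^ 2 * N) ≤ 121 * (NF * D ^ 2) := by
  obtain ⟨f, mm, hf, hf2, hm1, hm2, -⟩ := h.near
  have hNF0 : 0 < NF := by omega
  have r1 : ∑ i, (b i : ℝ) ^ 2 + N = (D : ℝ) ^ 2 := by exact_mod_cast h.hN
  have r2 : ∑ i, (β i : ℝ) ^ 2 + NF = (e : ℝ) ^ 2 := by exact_mod_cast h.hNF
  have r3 : ∑ i, (b i : ℝ) * β i + f = (D : ℝ) * e := by exact_mod_cast hf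
  have := deg_real (D := (D : ℝ)) (e := e) (N := N) (NF := NF) (f := f) (mm := mm)
    (Nat.cast_nonneg _) (Nat.cast_nonneg _) r1 (by exact_mod_cast hN0) r2
    (by exact_mod_cast hNF0) r3 (by exact_mod_cast hf2) (by exact_mod_cast hm2)
  exact_mod_cast this

end Pool.Agent.helper25.SXB
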