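import Pool.Agent.helper25.SXB.Fin
import Pool.Agent.helper25.ST.Proc
import Pool.Agent.helper25.ST.Split

set_option autoImplicit false

/-!
# Module Proc: the collision process with big points as spectators

`procB`: copy of `proc` (ST/Proc.lean): `cw_gen` is applied to `rest + replicate s 1 + Bm b`
(reorder the multisets by `add_comm`, `add_assoc`, `add_left_comm`), the numbers `cd ms + s` become
`cd (Bm b) + cd ms + s`; at the end `finB` instead of `fin`.
`procEB`: copy of `procE` (ST/ProcE.lean): `split`, `procB` with the second alternative, `E.add`.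
-/

namespace Pool.Agent.helper25.SXB

open MvPolynomial Pool.Agent.helper5.NBS Pool.Agent.helper89.Segre Pool.Agent.SH9
  Pool.Agent.helper25.ST

theorem procB {d U W Δ Φ A w : ℕ} {b : Fin 8 → ℕ} (hU : 1 ≤ U) (hUW : U ≤ W) (hW : 2 ≤ W)
    (hΔ : 1 ≤ Δ) (hNef : NefTB d b W Δ) (h3 : ∑ i, b i ≤ 3 * d)
    (hbC : cd (Bm b) + 3 + Δ ≤ (d + 2).choose 2)
    (hA : 3 * Φ + 3 * (Nat.sqrt (9 * U) + 1) * U ^ 2 ≤ U * A)
    (hw : 3 * A + 3 * Δ + 2 * d + 1 ≤ w) (ms : Multiset ℕ) (s : ℕ)
    (hms : ∀ μ ∈ ms, 2 ≤ μ ∧ μ + 1 ≤ W) (hΦ : S2 ms ≤ Φ)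
    (ht : (d + 2).choose 2 ≤ cd (Bm b) + cd ms + s)
    (h : w ≤ s ∨ (d + 2).choose 2 + w ≤ cd (Bm b) + cd ms + s) :
    E d (Bm b + (ms + Multiset.replicate s 1)) := by
  induction hn : Multiset.card ms using Nat.strong_induction_on generalizing ms s with
  | _ n ih =>
  by_cases hex : ∃ gs ≤ ms, Multiset.card gs = 9 ∧ (∀ μ ∈ gs, 3 * (μ + 1) ≤ U) ∧
      45 * S2 gs ≤ 5 * S1 gs ^ 2 + 4 * S1 gs
  · obtain ⟨gs, hle, hc, h3', hV⟩ := hex
    obtain ⟨rest, rfl⟩ := Multiset.le_iff_exists_add.mp hle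
    obtain ⟨t, ρ, ht1, hE0, hE1, hcount, hρ, hS⟩ :=
      nineT hc (fun μ hμ => (hms μ (Multiset.mem_add.mpr (Or.inl hμ))).1) hV
    have hk2 : kk (t + 2) = cd gs + ρ := by rw [hcount]; rfl
    have hk1 := kk_succ t
    have hb := S1_le_card gs h3'
    rw [hc] at hb
    have htW : t + 3 ≤ W := by omega
    have hcs := cs_card gs
    rw [hc] at hcs
    have hsq : (t + 3) ^ 2 ≤ S2 gs := by
      have h5 : (3 * (t + 3)) ^ 2 ≤ S1 gs ^ 2 := Nat.pow_le_pow_left hS 2
      nlinarith
    have hsq' : (t + 2) ^ 2 ≤ S2 gs := le_trans (Nat.pow_le_pow_left (by omega) 2) hsq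
    rw [Multiset.card_add, hc] at hn
    rw [S2_add] at hΦ
    rw [cd_add] at ht h
    have hre : Bm b + (gs + rest + Multiset.replicate s 1) =
        gs + (Bm b + (rest + Multiset.replicate s 1)) := by
      rw [add_assoc, add_left_comm]
    rw [hre]
    refine cw_gen (t := t) (ρ := ρ) (σ := t + 2 - ρ) (by omega) hE0 hE1 ?_ ?_
    · rw [← Multiset.add_cons, ← Multiset.cons_add]
      refine ih (Multiset.card rest + 1) (by omega) ((t + 2) ::ₘ rest) s ?_ ?_ ?_ ?_
        (Multiset.card_cons _ _)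
      · intro μ hμ
        rcases Multiset.mem_cons.mp hμ with rfl | hμ
        · omega
        · exact hms μ (Multiset.mem_add.mpr (Or.inr hμ))
      · rw [S2_cons]
        have : t + 2 + 1 = t + 3 := rfl
        rw [this]
        omega
      · rw [cd_cons]
        omega
      · rw [cd_cons]
        omega
    · have he : (t + 1) ::ₘ (Bm b + (rest + Multiset.replicate s 1) +
            Multiset.replicate (t + 2 - ρ) 1) =
          Bm b + ((t + 1) ::ₘ rest + Multiset.replicate (s + (t + 2 - ρ)) 1) := by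
        rw [Multiset.replicate_add, add_assoc, ← Multiset.add_cons, Multiset.cons_add, add_assoc]
      rw [he]
      refine ih (Multiset.card rest + 1) (by omega) ((t + 1) ::ₘ rest) (s + (t + 2 - ρ))
        ?_ ?_ ?_ ?_ (Multiset.card_cons _ _)
      · intro μ hμ
        rcases Multiset.mem_cons.mp hμ with rfl | hμ
        · omega
        · exact hms μ (Multiset.mem_add.mpr (Or.inr hμ))
      · rw [S2_cons]
        have : t + 1 + 1 = t + 2 := rfl
        rw [this]
        omega
      · rw [cd_cons]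
        omega
      · rw [cd_cons]
        omega
  · have hbk := bucket (ms := ms) (W := U) (fun gs hle hc h3 hV => hex ⟨gs, hle, hc, h3, hV⟩)
    have hS1 : S1 ms ≤ A := by
      have h5 : U * S1 ms ≤ U * A := by
        refine hbk.trans (le_trans ?_ hA)
        exact Nat.add_le_add_right (Nat.mul_le_mul_left 3 hΦ) _
      exact Nat.le_of_mul_le_mul_left h5 (by omega)
    exact finB hW hΔ hNef h3 hbC (fun μ hμ => (hms μ hμ).2) hS1 hw ht h

end Pool.Agent.helper25.SXB
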