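import Pool.Agent.helper25.SXB.Defs

set_option autoImplicit false

/-!
# Module Pull: renaming points

`pullT`: the general statement: a property which holds for the nine very general points of a countable set
`T` holds for the points `q ∘ ι`, `ι : Fin 9 → Fin n` injective, outside the countable set
`(rename (fun x => (ι x.1, x.2))) '' T` (`rename_injective`, `eval_rename`; as in `nefV_perm`,
KD/V4.lean).
`Pos.pull`: `ι = Fin.append (Fin.castAdd m) (fun _ => Fin.natAdd 8 j)`.
-/

namespace Pool.Agent.helper25.SXB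

open MvPolynomial Pool.Agent.helper5.NBS Pool.Agent.helper89.Segre Pool.Agent.SH9
  Pool.Agent.helper25.ST

/-- the eight big points and the point `j` -/
private def pullι {m : ℕ} (j : Fin m) : Fin (8 + 1) → Fin (8 + m) :=
  Fin.append (Fin.castAdd m) (fun _ => Fin.natAdd 8 j)

private lemma pullι_inj {m : ℕ} (j : Fin m) : Function.Injective (pullι j) := by
  intro x y hxy
  induction x using Fin.addCases with
  | left x =>
    induction y using Fin.addCases with
    | left y =>
      rw [pullι, Fin.append_left, Fin.append_left] at hxy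
      rw [Fin.castAdd_injective _ _ hxy]
    | right y =>
      rw [pullι, Fin.append_left, Fin.append_right] at hxy
      have h := congrArg Fin.val hxy
      simp only [Fin.val_castAdd, Fin.val_natAdd] at h
      have := x.2
      omega
  | right x =>
    induction y using Fin.addCases with
    | left y =>
      rw [pullι, Fin.append_left, Fin.append_right] at hxy
      have h := congrArg Fin.val hxy
      simp only [Fin.val_castAdd, Fin.val_natAdd] at h
      have := y.2
      omega
    | right y =>
      rw [Subsingleton.elim x y]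

theorem Pos.pull {D X : ℕ} {b : Fin 8 → ℕ} (h : Pos D X b) {m : ℕ} (j : Fin m) :
    ∃ T : Set (PtRing (8 + m)), T.Countable ∧ (∀ Q ∈ T, Q ≠ 0) ∧
      ∀ q : Fin (8 + m) → Fin 2 → ℂ, (∀ Q ∈ T, evP q Q ≠ 0) → ∀ F : R2, Irreducible F →
        ∑ i, b i * mult (q (Fin.castAdd m i)) F + X * mult (q (Fin.natAdd 8 j)) F ≤
          D * wdeg 1 F ∧
        16 * ∑ i, b i * mult (q (Fin.castAdd m i)) F + X * wdeg 1 F ≤ 16 * (D * wdeg 1 F) := by
  obtain ⟨T, hT, hT0, hTp⟩ := h
  have hinj : Function.Injective (fun x : Fin (8 + 1) × Fin 2 =>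
      ((pullι j x.1, x.2) : Fin (8 + m) × Fin 2)) := by
    rintro ⟨x, y⟩ ⟨x', y'⟩ hxy
    simp only [Prod.mk.injEq] at hxy
    rw [pullι_inj j hxy.1, hxy.2]
  have hev : ∀ (q : Fin (8 + m) → Fin 2 → ℂ) (Q : PtRing (8 + 1)),
      evP q (rename (fun x : Fin (8 + 1) × Fin 2 => ((pullι j x.1, x.2) : Fin (8 + m) × Fin 2)) Q) =
        evP (fun i => q (pullι j i)) Q := by
    intro q Q
    rw [evP, evP, eval_rename]
    rfl
  refine ⟨(rename (fun x : Fin (8 + 1) × Fin 2 => ((pullι j x.1, x.2) : Fin (8 + m) × Fin 2))) '' T,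
    hT.image _, ?_, ?_⟩
  · rintro _ ⟨Q, hQ, rfl⟩ h0
    exact hT0 Q hQ (rename_injective _ hinj (by rw [h0, map_zero]))
  · intro q hq F hF
    have h1 := hTp (fun i => q (pullι j i)) (fun Q hQ => by
      rw [← hev]
      exact hq _ ⟨Q, hQ, rfl⟩) F hF
    have h2 : ∀ i : Fin 8, pullι j (Fin.castAdd 1 i) = Fin.castAdd m i := by
      intro i
      simp [pullι]
    have h3 : pullι j (Fin.natAdd 8 0) = Fin.natAdd 8 j := by
      rw [pullι, Fin.append_right]
    simp only [h2, h3] at h1
    exact h1

end Pool.Agent.helper25.SXB
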